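import Pool.Agent.Helper59.CP.Frame

/-!
Upper bound for the optimal idle time of `k` agents: moving frame strategies, subsets of agents.
-/

open Set

namespace CP

/-- forgetting agents can only increase the optimal idle time -/
theorem Iopt_le_comp {k m : ℕ} {v ε : Fin k → ℝ} (hv : ∀ i, 0 < v i) (σ : Fin m → Fin k)
    (hσ : Function.Injective σ) : Iopt v ε ≤ Iopt (v ∘ σ) (ε ∘ σ) := by
  unfold Iopt
  apply le_iInf₂
  intro a ha
  classical
  let b : Fin k → ℝ → UnitAddCircle := fun i =>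
    if h : ∃ j, σ j = i then a h.choose else fun _ => 0
  have hb : ∀ j, b (σ j) = a j := by
    intro j
    have h : ∃ j', σ j' = σ j := ⟨j, rfl⟩
    have h2 : h.choose = j := hσ h.choose_spec
    simp only [b, dif_pos h, h2]
  have hbt : IsTraversal v b := by
    intro i
    by_cases h : ∃ j, σ j = i
    · obtain ⟨j, rfl⟩ := h
      rw [hb]
      exact ha j
    · simp only [b, dif_neg h]
      refine ⟨continuousOn_const, ?_⟩
      intro t s _ hs _
      rw [dist_self]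
      exact (mul_pos (hv i) hs).le
  refine (iInf₂_le b hbt).trans ?_
  unfold idle
  apply iSup_mono
  intro x
  unfold idleAt
  apply le_iInf₂
  intro T hT
  apply iInf₂_le
  refine ⟨hT.1, ?_⟩
  intro K hK
  obtain ⟨t, ht, j, hj⟩ := hT.2 K hK
  exact ⟨t, ht, σ j, by rw [hb]; exact hj⟩

theorem le_zero_of_forall {x : ENNReal} (h : ∀ T : ℝ, 0 < T → x ≤ ENNReal.ofReal T) : x = 0 := by
  rw [← nonpos_iff_eq_zero]
  apply le_of_forall_gt
  intro b hb
  rcases eq_or_ne b ⊤ with hb' | hb'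
  · rw [hb']
    exact lt_of_le_of_lt (h 1 one_pos) ENNReal.ofReal_lt_top
  · have h3 : 0 < b.toReal := ENNReal.toReal_pos hb.ne' hb'
    have h4 := h (b.toReal / 2) (by linarith)
    apply lt_of_le_of_lt h4
    rw [ENNReal.ofReal_lt_iff_lt_toReal (by linarith) hb']
    linarith

theorem gain_pos {v u : ℝ} (hu : 0 ≤ u) (huv : u ≤ v) (hv : 0 < v) : 0 < gain v u := by
  unfold gain
  rcases hu.eq_or_lt with h | h
  · rw [← h]
    exact lt_max_of_lt_right (by linarith)
  · exact lt_max_of_lt_left h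

theorem gain_nonneg {v u : ℝ} (hu : 0 ≤ u) : 0 ≤ gain v u := hu.trans (le_max_left _ _)

/-- all agents, attained -/
theorem frame_attained {k : ℕ} (hk : 0 < k) {v ε : Fin k → ℝ} {u : ℝ} (hv : ∀ i, 0 < v i)
    (hε : ∀ i, 0 ≤ ε i) (hu : 0 ≤ u) (huv : ∀ i, u ≤ v i) (hL : 0 < 1 - 2 * ∑ i, ε i) :
    ∃ a, IsTraversal v a ∧
      idle ε a ≤ ENNReal.ofReal ((1 - 2 * ∑ i, ε i) / ∑ i, gain (v i) u) := by
  have hG : 0 < ∑ i, gain (v i) u := by
    apply Finset.sum_pos
    · intro i _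
      exact gain_pos hu (huv i) (hv i)
    · exact ⟨⟨0, hk⟩, Finset.mem_univ _⟩
  have hT : 0 < (1 - 2 * ∑ i, ε i) / ∑ i, gain (v i) u := div_pos hL hG
  refine tile hk hT hε (fun i => exists_sweeper hu (huv i) hT) ?_
  rw [Finset.sum_add_distrib, ← Finset.mul_sum, ← Finset.sum_mul]
  rw [mul_div_cancel₀ _ hG.ne']
  linarith

/-- static algorithm when the visibility arcs cover the circle -/
theorem static_attained {k : ℕ} (hk : 0 < k) {v ε : Fin k → ℝ} (hv : ∀ i, 0 < v i)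
    (hε : ∀ i, 0 ≤ ε i) (hL : 1 - 2 * ∑ i, ε i ≤ 0) :
    ∃ a, IsTraversal v a ∧ idle ε a = 0 := by
  -- a family of algorithms would do, but the algorithm must not depend on `T`
  set c : ℕ → ℝ := fun j => if h : j < k then 2 * ε ⟨j, h⟩ else 0 with hc
  set P : ℕ → ℝ := fun j => ∑ i ∈ Finset.range j, c i with hP
  have hPk : 1 ≤ P k := by
    rw [hP]
    simp only
    rw [Finset.sum_range]
    have : ∑ i : Fin k, c i = ∑ i, 2 * ε i := by
      apply Finset.sum_congr rfl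
      intro i _
      rw [hc]
      simp
    rw [this, ← Finset.mul_sum]
    linarith
  refine ⟨coeAlg fun i _ => P i + ε i, isTraversal_coeAlg ?_, le_zero_of_forall ?_⟩
  · intro i s t
    rw [sub_self, abs_zero]
    exact mul_nonneg (hv i).le (abs_nonneg _)
  · intro T hT
    apply idle_coeAlg_le hT
    intro K _
    refine ⟨0, ?_⟩
    intro y hy1 hy2
    obtain ⟨i, hi, hi1, hi2⟩ := exists_between_seq P k hk (y := y)
      (by rw [hP]; simp only [Finset.range_zero, Finset.sum_empty]; linarith) (by linarith)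
    have hstep : P (i + 1) = P i + 2 * ε ⟨i, hi⟩ := by
      rw [hP]
      simp only
      rw [Finset.sum_range_succ, hc]
      simp [hi]
    refine ⟨⟨i, hi⟩, K, left_mem_Icc.mpr (by linarith), ?_⟩
    rw [abs_le]
    constructor <;> simp only <;> linarith

theorem frame_attained' {k : ℕ} (hk : 0 < k) {v ε : Fin k → ℝ} {u : ℝ} (hv : ∀ i, 0 < v i)
    (hε : ∀ i, 0 ≤ ε i) (hu : 0 ≤ u) (huv : ∀ i, u ≤ v i) :
    ∃ a, IsTraversal v a ∧
      idle ε a ≤ ENNReal.ofReal ((1 - 2 * ∑ i, ε i) / ∑ i, gain (v i) u) := by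
  rcases le_or_gt (1 - 2 * ∑ i, ε i) 0 with h | h
  · obtain ⟨a, ha, ha2⟩ := static_attained hk hv hε h
    exact ⟨a, ha, by rw [ha2]; exact bot_le⟩
  · exact frame_attained hk hv hε hu huv h

/-- The moving frame bound. -/
theorem frame_bound {k : ℕ} {v ε : Fin k → ℝ} {u : ℝ} (hv : ∀ i, 0 < v i) (hε : ∀ i, 0 ≤ ε i)
    (S : Finset (Fin k)) (hS : S.Nonempty) (hu : 0 ≤ u) (huv : ∀ i ∈ S, u ≤ v i) :
    Iopt v ε ≤ ENNReal.ofReal ((1 - 2 * ∑ i ∈ S, ε i) / ∑ i ∈ S, gain (v i) u) := by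
  set σ := S.orderEmbOfFin rfl with hσ
  have hmem : ∀ j, σ j ∈ S := fun j => S.orderEmbOfFin_mem rfl j
  have hsum : ∀ f : Fin k → ℝ, ∑ j, f (σ j) = ∑ i ∈ S, f i := by
    intro f
    have h1 : Finset.univ.map σ.toEmbedding = S := Finset.map_orderEmbOfFin_univ S rfl
    conv_rhs => rw [← h1]
    rw [Finset.sum_map]
    rfl
  refine (Iopt_le_comp hv σ σ.injective).trans ?_
  obtain ⟨a, ha, hle⟩ := frame_attained' (v := v ∘ σ) (ε := ε ∘ σ) hS.card_pos
    (fun j => hv _) (fun j => hε _) hu (fun j => huv _ (hmem j))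
  have h2 : ∑ i, (ε ∘ σ) i = ∑ i ∈ S, ε i := hsum ε
  have h3 : ∑ i, gain ((v ∘ σ) i) u = ∑ i ∈ S, gain (v i) u := hsum fun i => gain (v i) u
  rw [h2, h3] at hle
  exact (iInf₂_le a ha).trans hle

end CP
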