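import Pool.Agent.Helper59.CP.OneDim

/-!
From the covering hypothesis on the circle (read on the real line) to the one-dimensional system.
-/

open Set

namespace CP

/-- maximum of `f` over the window `[K, K+T]` -/
noncomputable def mx (f : ℝ → ℝ) (T K : ℝ) : ℝ := sSup ((fun x => f (K + x)) '' Icc 0 T)

/-- minimum of `f` over the window `[K, K+T]` -/
noncomputable def mn (f : ℝ → ℝ) (T K : ℝ) : ℝ := sInf ((fun x => f (K + x)) '' Icc 0 T)

theorem continuous_mx {f : ℝ → ℝ} (hf : Continuous f) (T : ℝ) : Continuous (mx f T) := by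
  unfold mx
  apply isCompact_Icc.continuous_sSup (f := fun K x => f (K + x))
  fun_prop

theorem continuous_mn {f : ℝ → ℝ} (hf : Continuous f) (T : ℝ) : Continuous (mn f T) := by
  unfold mn
  apply isCompact_Icc.continuous_sInf (f := fun K x => f (K + x))
  fun_prop

theorem mx_attained {f : ℝ → ℝ} (hf : Continuous f) {T : ℝ} (hT : 0 ≤ T) (K : ℝ) :
    ∃ t ∈ Icc K (K + T), f t = mx f T K := by
  have hc : ContinuousOn (fun x => f (K + x)) (Icc 0 T) := by
    apply Continuous.continuousOn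
    fun_prop
  obtain ⟨x, hx, hx2⟩ := isCompact_Icc.exists_sSup_image_eq ⟨0, left_mem_Icc.mpr hT⟩ hc
  exact ⟨K + x, ⟨by linarith [hx.1], by linarith [hx.2]⟩, hx2.symm⟩

theorem mn_attained {f : ℝ → ℝ} (hf : Continuous f) {T : ℝ} (hT : 0 ≤ T) (K : ℝ) :
    ∃ t ∈ Icc K (K + T), f t = mn f T K := by
  have hc : ContinuousOn (fun x => f (K + x)) (Icc 0 T) := by
    apply Continuous.continuousOn
    fun_prop
  obtain ⟨x, hx, hx2⟩ := isCompact_Icc.exists_sInf_image_eq ⟨0, left_mem_Icc.mpr hT⟩ hc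
  exact ⟨K + x, ⟨by linarith [hx.1], by linarith [hx.2]⟩, hx2.symm⟩

theorem le_mx {f : ℝ → ℝ} (hf : Continuous f) {T K t : ℝ} (ht : t ∈ Icc K (K + T)) :
    f t ≤ mx f T K := by
  have hc : ContinuousOn (fun x => f (K + x)) (Icc 0 T) := by
    apply Continuous.continuousOn
    fun_prop
  apply le_csSup (isCompact_Icc.image_of_continuousOn hc).bddAbove
  exact ⟨t - K, ⟨by linarith [ht.1], by linarith [ht.2]⟩, by simp⟩

theorem mn_le {f : ℝ → ℝ} (hf : Continuous f) {T K t : ℝ} (ht : t ∈ Icc K (K + T)) :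
    mn f T K ≤ f t := by
  have hc : ContinuousOn (fun x => f (K + x)) (Icc 0 T) := by
    apply Continuous.continuousOn
    fun_prop
  apply csInf_le (isCompact_Icc.image_of_continuousOn hc).bddBelow
  exact ⟨t - K, ⟨by linarith [ht.1], by linarith [ht.2]⟩, by simp⟩

theorem mx_sub_mn {f : ℝ → ℝ} {v : ℝ} (hv : 0 ≤ v) (hf : ∀ s t, |f s - f t| ≤ v * |s - t|)
    {T : ℝ} (hT : 0 ≤ T) (K : ℝ) : mx f T K - mn f T K ≤ v * T := by
  have hc := lip_cont hf
  obtain ⟨t, ht, ht2⟩ := mx_attained hc hT K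
  obtain ⟨s, hs, hs2⟩ := mn_attained hc hT K
  rw [← ht2, ← hs2]
  have h1 := hf t s
  have h2 := le_abs_self (f t - f s)
  have h3 : |t - s| ≤ T := by
    rw [abs_le]
    constructor <;> linarith [ht.1, ht.2, hs.1, hs.2]
  have h4 : v * |t - s| ≤ v * T := mul_le_mul_of_nonneg_left h3 hv
  linarith

/-- The hypothesis that every point is seen in every window, on the real line. -/
def Cov (A B : ℝ → ℝ) (e1 e2 T : ℝ) : Prop :=
  ∀ K, 0 ≤ K → ∀ y : ℝ, ∃ t ∈ Icc K (K + T), ∃ n : ℤ, |A t - y - n| ≤ e1 ∨ |B t - y - n| ≤ e2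

/-- An arc lemma: if the translates of `[c, d]` (`d - c < 1`) by integers cover `(a, b)`,
then one of them covers. -/
theorem arc {a b c d : ℝ} (hab : a < b) (hcd : d - c < 1)
    (h : ∀ y ∈ Ioo a b, ∃ n : ℤ, c ≤ y + n ∧ y + n ≤ d) :
    ∃ n : ℤ, c ≤ a + n ∧ b + n ≤ d := by
  -- upward claim
  have up : ∀ y ∈ Ioo a b, ∀ n : ℤ, c ≤ y + n → y + n ≤ d → ∀ z ∈ Ioo a b, y ≤ z → z + n ≤ d := by
    intro y hy n hn1 hn2 z hz hyz
    by_contra hcon
    push Not at hcon
    -- a point slightly above d - n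
    set δ : ℝ := min (z + n - d) ((1 - (d - c)) / 2) with hδ
    have hδ0 : 0 < δ := lt_min (by linarith) (by linarith)
    have hδ1 : δ ≤ z + n - d := min_le_left _ _
    have hδ2 : δ ≤ (1 - (d - c)) / 2 := min_le_right _ _
    have hu : d - n + δ ∈ Ioo a b := ⟨by linarith [hy.1], by linarith [hz.2]⟩
    obtain ⟨m, hm1, hm2⟩ := h _ hu
    have h1 : (m : ℝ) < n := by linarith
    have h2 : m < n := by exact_mod_cast h1
    have h3 : m ≤ n - 1 := by omega
    have h4 : (m : ℝ) ≤ n - 1 := by exact_mod_cast h3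
    linarith
  have h0 : (a + b) / 2 ∈ Ioo a b := ⟨by linarith, by linarith⟩
  obtain ⟨n, hn1, hn2⟩ := h _ h0
  have hall : ∀ y ∈ Ioo a b, c ≤ y + n ∧ y + n ≤ d := by
    intro y hy
    rcases le_total ((a + b) / 2) y with h1 | h1
    · exact ⟨by linarith, up _ h0 n hn1 hn2 y hy h1⟩
    · obtain ⟨m, hm1, hm2⟩ := h y hy
      have h2 := up y hy m hm1 hm2 _ h0 h1
      have h3 : c ≤ (a + b) / 2 + m := by linarith
      have h4 : m = n := by
        have h5 : (m : ℝ) - n < 1 := by linarith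
        have h6 : (n : ℝ) - m < 1 := by linarith
        have h5' : m - n < 1 := by exact_mod_cast h5
        have h6' : n - m < 1 := by exact_mod_cast h6
        omega
      subst h4
      exact ⟨hm1, hm2⟩
  refine ⟨n, ?_, ?_⟩
  · by_contra hcon
    push Not at hcon
    -- a + n < c; take y slightly above a
    set y := min ((a + b) / 2) ((a + (c - n)) / 2) with hy
    have hy1 : a < y := lt_min (by linarith) (by linarith)
    have hy2 : y ≤ (a + b) / 2 := min_le_left _ _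
    have hy3 : y ≤ (a + (c - n)) / 2 := min_le_right _ _
    have := (hall y ⟨hy1, by linarith⟩).1
    linarith
  · by_contra hcon
    push Not at hcon
    set y := max ((a + b) / 2) ((b + (d - n)) / 2) with hy
    have hy1 : y < b := max_lt (by linarith) (by linarith)
    have hy2 : (a + b) / 2 ≤ y := le_max_left _ _
    have hy3 : (b + (d - n)) / 2 ≤ y := le_max_right _ _
    have := (hall y ⟨by linarith, hy1⟩).2
    linarith

variable {A B : ℝ → ℝ} {v w e1 e2 T : ℝ}

theorem cov_int (hv : 0 ≤ v) (hw : 0 ≤ w) (hA : ∀ s t, |A s - A t| ≤ v * |s - t|)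
    (hB : ∀ s t, |B s - B t| ≤ w * |s - t|) (hT : 0 ≤ T)
    (h1 : v * T + 2 * e1 < 1) (h2 : w * T + 2 * e2 < 1) (h : Cov A B e1 e2 T) {K : ℝ}
    (hK : 0 ≤ K) : ∃ n : ℤ, mn B T K - mx A T K - e1 - e2 ≤ n ∧
      (n : ℝ) ≤ mx B T K - mn A T K - 1 + e1 + e2 := by
  have hAc := lip_cont hA
  have hBc := lip_cont hB
  have hoA := mx_sub_mn hv hA hT K
  have hoB := mx_sub_mn hw hB hT K
  obtain ⟨n, hn1, hn2⟩ := arc (a := mx A T K + e1) (b := mn A T K - e1 + 1)
    (c := mn B T K - e2) (d := mx B T K + e2) (by linarith) (by linarith) (by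
      intro y hy
      obtain ⟨t, ht, n, hn⟩ := h K hK y
      have hA1 := le_mx hAc ht
      have hA2 := mn_le hAc ht
      have hB1 := le_mx hBc ht
      have hB2 := mn_le hBc ht
      rcases hn with hn | hn
      · exfalso
        rw [abs_le] at hn
        obtain ⟨ha, hb⟩ := hn
        have h3 : (n : ℝ) < 0 := by linarith [hy.1]
        have h4 : (-1 : ℝ) < n := by linarith [hy.2]
        have h3' : n < 0 := by exact_mod_cast h3
        have h4' : -1 < n := by exact_mod_cast h4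
        omega
      · rw [abs_le] at hn
        exact ⟨n, by linarith [hn.2], by linarith [hn.1]⟩)
  exact ⟨n, by linarith, by linarith⟩

theorem cov_const (hv : 0 ≤ v) (hw : 0 ≤ w) (hA : ∀ s t, |A s - A t| ≤ v * |s - t|)
    (hB : ∀ s t, |B s - B t| ≤ w * |s - t|) (hT : 0 ≤ T)
    (h1 : v * T + 2 * e1 < 1) (h2 : w * T + 2 * e2 < 1)
    (h3 : (v + w) * T + 2 * e1 + 2 * e2 < 2) (h : Cov A B e1 e2 T) :
    ∃ n : ℤ, ∀ K, 0 ≤ K → mn B T K - mx A T K - e1 - e2 ≤ n ∧
      (n : ℝ) ≤ mx B T K - mn A T K - 1 + e1 + e2 := by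
  have hAc := lip_cont hA
  have hBc := lip_cont hB
  -- the function D
  set D : ℝ → ℝ := fun K => mn B T K - mx A T K - e1 - e2 with hD
  have hDc : Continuous D := by
    have c1 := continuous_mn hBc T
    have c2 := continuous_mx hAc T
    rw [hD]
    fun_prop
  have hUD : ∀ K, mx B T K - mn A T K - 1 + e1 + e2 ≤ D K + ((v + w) * T + 2 * e1 + 2 * e2 - 1) := by
    intro K
    have hoA := mx_sub_mn hv hA hT K
    have hoB := mx_sub_mn hw hB hT K
    rw [hD]
    simp only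
    linarith
  -- two different integers are impossible
  have key : ∀ K1 K2 : ℝ, 0 ≤ K1 → 0 ≤ K2 → ∀ n1 n2 : ℤ, D K1 ≤ n1 →
      (n2 : ℝ) ≤ mx B T K2 - mn A T K2 - 1 + e1 + e2 → n2 ≤ n1 := by
    intro K1 K2 hK1 hK2 n1 n2 hn1 hn2
    by_contra hcon
    push Not at hcon
    have h4 : (n1 : ℝ) + 1 ≤ n2 := by exact_mod_cast hcon
    have h5 := hUD K2
    set c : ℝ := (2 - ((v + w) * T + 2 * e1 + 2 * e2)) / 2 with hc
    have hc0 : 0 < c := by rw [hc]; linarith
    have hc1 : (n1 : ℝ) + c ≤ D K2 := by linarith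
    obtain ⟨K, hK, hDK⟩ := isPreconnected_Ici.intermediate_value (a := K1) (b := K2)
      (mem_Ici.mpr hK1) (mem_Ici.mpr hK2) hDc.continuousOn
      (⟨by linarith, hc1⟩ : (n1 : ℝ) + c ∈ Icc (D K1) (D K2))
    obtain ⟨n, hna, hnb⟩ := cov_int hv hw hA hB hT h1 h2 h (mem_Ici.mp hK)
    have h6 := hUD K
    have h7 : D K ≤ n := hna
    have h8 : (n1 : ℝ) < n := by linarith
    have h9 : (n : ℝ) < n1 + 1 := by linarith
    have h8' : n1 < n := by exact_mod_cast h8
    have h9' : n < n1 + 1 := by exact_mod_cast h9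
    omega
  obtain ⟨n, hna, hnb⟩ := cov_int hv hw hA hB hT h1 h2 h (le_refl 0)
  refine ⟨n, ?_⟩
  intro K hK
  obtain ⟨m, hma, hmb⟩ := cov_int hv hw hA hB hT h1 h2 h hK
  have e1' := key 0 K (le_refl _) hK n m hna hmb
  have e2' := key K 0 hK (le_refl _) m n hma hnb
  have : m = n := le_antisymm e1' e2'
  subst this
  exact ⟨hma, hmb⟩

/-- The system. -/
theorem sys_of_cov (hv : 0 ≤ v) (hw : 0 ≤ w) (hA : ∀ s t, |A s - A t| ≤ v * |s - t|)
    (hB : ∀ s t, |B s - B t| ≤ w * |s - t|) (hT : 0 ≤ T)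
    (h1 : v * T + 2 * e1 < 1) (h2 : w * T + 2 * e2 < 1)
    (h3 : (v + w) * T + 2 * e1 + 2 * e2 < 2) (h : Cov A B e1 e2 T) :
    ∃ c : ℝ, Sys A (fun t => B t - c) v w T (1 - 2 * e1 - 2 * e2) := by
  have hAc := lip_cont hA
  have hBc := lip_cont hB
  obtain ⟨n, hn⟩ := cov_const hv hw hA hB hT h1 h2 h3 h
  refine ⟨n + e1 + e2, hA, ?_, ?_, ?_⟩
  · intro s t
    have := hB s t
    convert this using 2
    ring
  · intro K hK c hc
    obtain ⟨s, hs, hs2⟩ := mn_attained hBc hT K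
    obtain ⟨t, ht, ht2⟩ := mx_attained hAc hT K
    refine ⟨s, hs, ?_⟩
    have := (hn K hK).1
    have := hc t ht
    linarith
  · intro K hK c hc
    obtain ⟨s, hs, hs2⟩ := mx_attained hBc hT K
    obtain ⟨t, ht, ht2⟩ := mn_attained hAc hT K
    refine ⟨s, hs, ?_⟩
    have := (hn K hK).2
    have := hc t ht
    linarith

end CP
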