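import Mathlib

/-!
Patrolling a circle of circumference `1` by `k` agents with maximal speeds and visibility radii:
traversal algorithms, idle time and its optimal value.
-/

open Set

namespace CP

/-- Traversal algorithms: `a i t` is the position of agent `i` at time `t ≥ 0` on the circle
`ℝ / ℤ` (with arc-length distance); each path is continuous on `[0, ∞)` and the distance covered
in time `s` is at most `v i * s` whenever `v i * s < 1 / 2`. -/
def IsTraversal {k : ℕ} (v : Fin k → ℝ) (a : Fin k → ℝ → UnitAddCircle) : Prop :=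
  ∀ i, ContinuousOn (a i) (Ici 0) ∧
    ∀ t s : ℝ, 0 ≤ t → 0 < s → v i * s < 1 / 2 → dist (a i t) (a i (t + s)) ≤ v i * s

/-- `T` is a window length for the point `x`: every window `[K, K + T]`, `K ≥ 0`, contains a
time at which some agent sees `x`. -/
def IsWindow {k : ℕ} (ε : Fin k → ℝ) (a : Fin k → ℝ → UnitAddCircle) (x : UnitAddCircle)
    (T : ℝ) : Prop :=
  0 < T ∧ ∀ K : ℝ, 0 ≤ K → ∃ t ∈ Icc K (K + T), ∃ i, dist (a i t) x ≤ ε i

/-- The idle time at the point `x` (infimum of the window lengths, infinite if there is none). -/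
noncomputable def idleAt {k : ℕ} (ε : Fin k → ℝ) (a : Fin k → ℝ → UnitAddCircle)
    (x : UnitAddCircle) : ENNReal :=
  ⨅ (T : ℝ) (_ : IsWindow ε a x T), ENNReal.ofReal T

/-- The idle time of an algorithm. -/
noncomputable def idle {k : ℕ} (ε : Fin k → ℝ) (a : Fin k → ℝ → UnitAddCircle) : ENNReal :=
  ⨆ x, idleAt ε a x

/-- The optimal idle time. -/
noncomputable def Iopt {k : ℕ} (v ε : Fin k → ℝ) : ENNReal :=
  ⨅ (a : Fin k → ℝ → UnitAddCircle) (_ : IsTraversal v a), idle ε a

end CP
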