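import Pool.Agent.Helper59.CP.OneDim

/-!
Step 2: in every window one of the two orders (low before high, high before low) dominates,
and it is the same order for all windows.
-/

open Set

namespace CP

/-- pairs of times in a window -/
def PairSet (T : ℝ) : Set (ℝ × ℝ) := {p | 0 ≤ p.1 ∧ p.1 ≤ p.2 ∧ p.2 ≤ T}

theorem isCompact_pairSet (T : ℝ) : IsCompact (PairSet T) := by
  have h1 : PairSet T ⊆ Icc (0 : ℝ) T ×ˢ Icc (0 : ℝ) T := by
    rintro ⟨x, y⟩ ⟨h1, h2, h3⟩
    exact ⟨⟨h1, by simp only at *; linarith⟩, ⟨by simp only at *; linarith, h3⟩⟩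
  apply (isCompact_Icc.prod isCompact_Icc).of_isClosed_subset _ h1
  have : PairSet T = {p | 0 ≤ p.1} ∩ ({p | p.1 ≤ p.2} ∩ {p | p.2 ≤ T}) := by
    ext p; rfl
  rw [this]
  exact (isClosed_le continuous_const continuous_fst).inter
    ((isClosed_le continuous_fst continuous_snd).inter (isClosed_le continuous_snd continuous_const))

/-- largest rise of `A` in the window `[K, K+T]` -/
noncomputable def rise (A : ℝ → ℝ) (T K : ℝ) : ℝ :=
  sSup ((fun p : ℝ × ℝ => A (K + p.2) - A (K + p.1)) '' PairSet T)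

theorem continuous_rise {A : ℝ → ℝ} (hA : Continuous A) (T : ℝ) : Continuous (rise A T) := by
  unfold rise
  apply (isCompact_pairSet T).continuous_sSup (f := fun K p => A (K + p.2) - A (K + p.1))
  fun_prop

theorem rise_attained {A : ℝ → ℝ} (hA : Continuous A) {T : ℝ} (hT : 0 ≤ T) (K : ℝ) :
    ∃ s t, K ≤ s ∧ s ≤ t ∧ t ≤ K + T ∧ A t - A s = rise A T K := by
  have hne : (PairSet T).Nonempty := ⟨(0, 0), le_refl _, le_refl _, hT⟩
  have hc : ContinuousOn (fun p : ℝ × ℝ => A (K + p.2) - A (K + p.1)) (PairSet T) := by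
    apply Continuous.continuousOn
    fun_prop
  obtain ⟨⟨x, y⟩, ⟨h1, h2, h3⟩, hp⟩ := (isCompact_pairSet T).exists_sSup_image_eq hne hc
  simp only at h1 h2 h3 hp
  exact ⟨K + x, K + y, by linarith, by linarith, by linarith, hp.symm⟩

theorem le_rise {A : ℝ → ℝ} (hA : Continuous A) {T : ℝ} {K s t : ℝ} (h1 : K ≤ s)
    (h2 : s ≤ t) (h3 : t ≤ K + T) : A t - A s ≤ rise A T K := by
  have hc : ContinuousOn (fun p : ℝ × ℝ => A (K + p.2) - A (K + p.1)) (PairSet T) := by
    apply Continuous.continuousOn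
    fun_prop
  apply le_csSup ((isCompact_pairSet T).image_of_continuousOn hc).bddAbove
  refine ⟨(s - K, t - K), ⟨by simp only; linarith, by simp only; linarith, by simp only; linarith⟩, ?_⟩
  simp

/-- drops are rises of `-A` -/
theorem le_drop {A : ℝ → ℝ} (hA : Continuous A) {T : ℝ} {K s t : ℝ} (h1 : K ≤ s)
    (h2 : s ≤ t) (h3 : t ≤ K + T) : A s - A t ≤ rise (fun x => - A x) T K := by
  have := le_rise (A := fun x => - A x) hA.neg h1 h2 h3
  linarith

/-- maxima never precede minima in the windows -/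
def NoHL (A : ℝ → ℝ) (T : ℝ) : Prop :=
  ∀ K, T / 2 ≤ K → ∀ p l, K ≤ p → p ≤ l → l ≤ K + T → (∀ t ∈ Icc K (K + T), A t ≤ A p) →
    (∀ t ∈ Icc K (K + T), A l ≤ A t) → False

theorem noHL_of_lt {A : ℝ → ℝ} (hA : Continuous A) {T : ℝ} (hT : 0 ≤ T)
    (h : ∀ K, T / 2 ≤ K → rise (fun x => - A x) T K < rise A T K) : NoHL A T := by
  intro K hK p l hp hpl hl hmax hmin
  obtain ⟨s, t, h1, h2, h3, h4⟩ := rise_attained hA hT K
  have h5 := le_drop hA hp hpl hl
  have h6 := h K hK
  have h7 := hmax t ⟨by linarith, h3⟩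
  have h8 := hmin s ⟨h1, by linarith⟩
  linarith

theorem Sys.rise_ne_drop {A B : ℝ → ℝ} {v w T L : ℝ} (S : Sys A B v w T L) (hv : 0 < v)
    (hw : 0 < w) (hT : 0 < T) (hL : max (2 * w * T) ((v + w) * T / 2) < L) {K : ℝ}
    (hK : T / 2 ≤ K) : rise A T K ≠ rise (fun x => - A x) T K := by
  intro heq
  have hA : Continuous A := lip_cont S.hA
  obtain ⟨s, t, h1, h2, h3, h4⟩ := rise_attained hA hT.le K
  obtain ⟨s', t', h1', h2', h3', h4'⟩ := rise_attained (A := fun x => - A x) hA.neg hT.le K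
  -- all differences are at most the rise
  have hall : ∀ x ∈ Icc K (K + T), ∀ y ∈ Icc K (K + T), A y - A x ≤ rise A T K := by
    intro x hx y hy
    rcases le_total x y with h | h
    · exact le_rise hA hx.1 h hy.2
    · rw [heq]
      exact le_drop hA hy.1 h hx.2
  have hs : s ∈ Icc K (K + T) := ⟨h1, by linarith⟩
  have ht : t ∈ Icc K (K + T) := ⟨by linarith, h3⟩
  have hs' : s' ∈ Icc K (K + T) := ⟨h1', by linarith⟩
  have ht' : t' ∈ Icc K (K + T) := ⟨by linarith, h3'⟩
  have hsmin : ∀ x ∈ Icc K (K + T), A s ≤ A x := fun x hx => by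
    have := hall x hx t ht
    linarith
  have htmax : ∀ x ∈ Icc K (K + T), A x ≤ A t := fun x hx => by
    have := hall s hs x hx
    linarith
  have hsmax' : ∀ x ∈ Icc K (K + T), A x ≤ A s' := fun x hx => by
    have := hall t' ht' x hx
    linarith
  have htmin' : ∀ x ∈ Icc K (K + T), A t' ≤ A x := fun x hx => by
    have := hall x hx s' hs'
    linarith
  -- s low, t high, s' high, t' low
  rcases le_total t s' with h | h
  · exact S.no_LHL hv hw hT hL hK h1 h2 (by linarith : t ≤ t') h3' hsmin htmin' htmax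
  · rcases le_total s s' with h5 | h5
    · exact S.no_LHL hv hw hT hL hK h1 h5 h2' h3' hsmin htmin' hsmax'
    · exact S.no_HLH hv hw hT hL hK h1' h5 h2 h3 hsmax' htmax hsmin

/-- Step 2. -/
theorem Sys.dichotomy {A B : ℝ → ℝ} {v w T L : ℝ} (S : Sys A B v w T L) (hv : 0 < v)
    (hw : 0 < w) (hT : 0 < T) (hL : max (2 * w * T) ((v + w) * T / 2) < L) :
    NoHL A T ∨ NoHL (fun x => - A x) T := by
  have hA : Continuous A := lip_cont S.hA
  have c1 := continuous_rise hA T
  have c2 := continuous_rise (A := fun x => - A x) hA.neg T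
  by_cases h : ∀ K, T / 2 ≤ K → rise (fun x => - A x) T K < rise A T K
  · exact Or.inl (noHL_of_lt hA hT.le h)
  · right
    apply noHL_of_lt (A := fun x => - A x) hA.neg hT.le
    simp only [neg_neg]
    push Not at h
    obtain ⟨K1, hK1, hK1'⟩ := h
    intro K hK
    by_contra hcon
    push Not at hcon
    -- intermediate value theorem
    have hpre : IsPreconnected (Ici (T / 2)) := isPreconnected_Ici
    obtain ⟨K2, hK2, hK2'⟩ := hpre.intermediate_value₂ hK1 hK c1.continuousOn c2.continuousOn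
      hK1' hcon
    exact S.rise_ne_drop hv hw hT hL hK2 hK2'

end CP
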