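import Pool.Agent.Helper59.CP.Dich

/-!
Step 3: the drawdown argument, and the one-dimensional theorem.
-/

open Set

namespace CP

/-- drawdowns that start after `P` -/
def DD (A : ℝ → ℝ) (T P : ℝ) : Set ℝ :=
  {x | ∃ p l, P ≤ p ∧ p ≤ l ∧ l ≤ p + T ∧ x = A p - A l}

theorem DD_nonempty (A : ℝ → ℝ) {T : ℝ} (hT : 0 ≤ T) (P : ℝ) : (0 : ℝ) ∈ DD A T P :=
  ⟨P, P, le_refl _, le_refl _, by linarith, by ring⟩

theorem DD_bdd {A : ℝ → ℝ} {v T : ℝ} (hv : 0 < v) (hA : ∀ s t, |A s - A t| ≤ v * |s - t|)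
    (P : ℝ) : BddAbove (DD A T P) := by
  refine ⟨v * T, ?_⟩
  rintro x ⟨p, l, h1, h2, h3, rfl⟩
  have h4 := hA p l
  rw [abs_sub_comm p l, abs_of_nonneg (by linarith : (0:ℝ) ≤ l - p)] at h4
  have h5 := le_abs_self (A p - A l)
  have h6 : v * (l - p) ≤ v * T := mul_le_mul_of_nonneg_left (by linarith) hv.le
  linarith

/-- the supremum of the drawdowns after `P` -/
noncomputable def F (A : ℝ → ℝ) (T P : ℝ) : ℝ := sSup (DD A T P)

theorem le_F {A : ℝ → ℝ} {v T : ℝ} (hv : 0 < v) (hA : ∀ s t, |A s - A t| ≤ v * |s - t|)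
    {P p l : ℝ} (h1 : P ≤ p) (h2 : p ≤ l) (h3 : l ≤ p + T) : A p - A l ≤ F A T P :=
  le_csSup (DD_bdd hv hA P) ⟨p, l, h1, h2, h3, rfl⟩

theorem F_nonneg {A : ℝ → ℝ} {v T : ℝ} (hv : 0 < v) (hT : 0 ≤ T)
    (hA : ∀ s t, |A s - A t| ≤ v * |s - t|) (P : ℝ) : 0 ≤ F A T P :=
  le_csSup (DD_bdd hv hA P) (DD_nonempty A hT P)

theorem slow {A : ℝ → ℝ} {v T : ℝ} (hv : 0 < v) (hT : 0 < T)
    (hA : ∀ s t, |A s - A t| ≤ v * |s - t|) {η : ℝ} (hη : 0 < η) :
    ∃ P, T / 2 ≤ P ∧ F A T P ≤ F A T (P + T) + η := by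
  by_contra hcon
  push Not at hcon
  have key : ∀ n : ℕ, F A T (T / 2 + n * T) ≤ F A T (T / 2) - n * η := by
    intro n
    induction n with
    | zero => simp
    | succ n ih =>
      have h1 := hcon (T / 2 + n * T) (by
        have : 0 ≤ (n : ℝ) * T := by positivity
        linarith)
      have h2 : T / 2 + (n : ℝ) * T + T = T / 2 + ((n + 1 : ℕ) : ℝ) * T := by push_cast; ring
      rw [h2] at h1
      push_cast at h1 ⊢
      linarith
  obtain ⟨n, hn⟩ := exists_nat_gt (F A T (T / 2) / η)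
  have h1 := key n
  have h2 := F_nonneg hv hT.le hA (T / 2 + n * T)
  rw [div_lt_iff₀ hη] at hn
  linarith

/-- Step 3. -/
theorem Sys.step3 {A B : ℝ → ℝ} {v w T L : ℝ} (S : Sys A B v w T L) (hv : 0 < v) (hw : 0 < w)
    (hT : 0 < T) (hL : max (2 * w * T) ((v + w) * T / 2) < L) (hNo : NoHL A T) : False := by
  have hAc : Continuous A := lip_cont S.hA
  set η : ℝ := (L - max (2 * w * T) ((v + w) * T / 2)) / 8 with hη
  have hηpos : 0 < η := by
    rw [hη]
    apply div_pos _ (by norm_num)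
    linarith
  obtain ⟨P0, hP0, hF⟩ := slow hv hT S.hA hηpos
  -- near maximal drawdown
  obtain ⟨x, ⟨p0, l0, hp0, hpl0, hl0, rfl⟩, hx⟩ :=
    exists_lt_of_lt_csSup ⟨0, DD_nonempty A hT.le (P0 + T)⟩
      (show F A T (P0 + T) - η < sSup (DD A T (P0 + T)) by
        change F A T (P0 + T) - η < F A T (P0 + T)
        linarith)
  have hnear : F A T P0 - 2 * η ≤ A p0 - A l0 := by linarith
  -- argmax on [p0, l0]
  obtain ⟨p, hp, hpmax⟩ := isCompact_Icc.exists_isMaxOn ⟨p0, left_mem_Icc.mpr hpl0⟩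
    (hAc.continuousOn (s := Icc p0 l0))
  have hpmax' : ∀ t ∈ Icc p0 l0, A t ≤ A p := fun t ht => hpmax ht
  have hpp0 := hpmax' p0 (left_mem_Icc.mpr hpl0)
  have hpT : T / 2 ≤ p := by linarith [hp.1]
  -- some higher value in [p, p+T]
  have hex : ∃ t ∈ Icc p (p + T), A p < A t := by
    by_contra hcon
    push Not at hcon
    obtain ⟨l, hl, hlmin⟩ := isCompact_Icc.exists_isMinOn
      (⟨p, left_mem_Icc.mpr (by linarith)⟩ : (Icc p (p + T)).Nonempty)
      (hAc.continuousOn (s := Icc p (p + T)))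
    exact hNo p hpT p l le_rfl hl.1 hl.2 hcon (fun t ht => hlmin ht)
  obtain ⟨t1, ht1, hAt1⟩ := hex
  have hl0t1 : l0 < t1 := by
    by_contra hcon
    push Not at hcon
    have := hpmax' t1 ⟨by linarith [hp.1, ht1.1], hcon⟩
    linarith
  -- first return p'
  have hl0p : A l0 ≤ A p := hpmax' l0 (right_mem_Icc.mpr hpl0)
  have hcpt : IsCompact (Icc l0 t1 ∩ {t | A p ≤ A t}) :=
    isCompact_Icc.inter_right (isClosed_le continuous_const hAc)
  obtain ⟨p', hp', hp'min⟩ := hcpt.exists_isLeast ⟨t1, ⟨hl0t1.le, le_rfl⟩, hAt1.le⟩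
  have hp'1 : l0 ≤ p' := hp'.1.1
  have hp'2 : p' ≤ t1 := hp'.1.2
  have hp'3 : A p ≤ A p' := hp'.2
  have hbelow : ∀ t ∈ Ico l0 p', A t < A p := by
    intro t ht
    by_contra hcon
    push Not at hcon
    have := hp'min ⟨⟨ht.1, by linarith [ht.2]⟩, hcon⟩
    linarith [ht.2]
  have hp'eq : A p' = A p := by
    apply le_antisymm _ hp'3
    by_contra hcon
    push Not at hcon
    obtain ⟨u, hu, hAu⟩ := intermediate_value_Icc hp'1 hAc.continuousOn ⟨hl0p, hcon.le⟩
    have h1 := hp'min ⟨⟨hu.1, by linarith [hu.2]⟩, hAu.ge⟩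
    have h2 : u = p' := le_antisymm hu.2 h1
    rw [h2] at hAu
    linarith
  have hpp' : p ≤ p' := by linarith [hp.2]
  have hp'T : p' ≤ p + T := by linarith [ht1.2]
  have hupper : ∀ t ∈ Icc p p', A t ≤ A p := by
    intro t ht
    rcases le_total t l0 with h | h
    · exact hpmax' t ⟨by linarith [hp.1, ht.1], h⟩
    · rcases lt_or_eq_of_le ht.2 with h' | h'
      · exact (hbelow t ⟨h, h'⟩).le
      · rw [h', hp'eq]
  -- argmin on [p, p']
  obtain ⟨l, hl, hlmin⟩ := isCompact_Icc.exists_isMinOn ⟨p, left_mem_Icc.mpr hpp'⟩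
    (hAc.continuousOn (s := Icc p p'))
  have hlmin' : ∀ t ∈ Icc p p', A l ≤ A t := fun t ht => hlmin ht
  set f : ℝ := A p - A l with hf
  have hf0 : 0 ≤ f := by
    have := hupper l hl
    linarith
  have hfnear : F A T P0 - 2 * η ≤ f := by
    have := hlmin' l0 ⟨hp.2, hp'1⟩
    linarith
  -- K1
  set K1 : ℝ := p' - T with hK1
  have hK1p : K1 ≤ p := by linarith
  have hK1P0 : P0 ≤ K1 := by linarith
  have hK1T : K1 + T = p' := by rw [hK1]; ring
  -- K'
  have hex2 : ∃ u ∈ Icc K1 p, A u ≤ A l := by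
    by_contra hcon
    push Not at hcon
    obtain ⟨q, hq, hqmax⟩ := isCompact_Icc.exists_isMaxOn ⟨p, right_mem_Icc.mpr hK1p⟩
      (hAc.continuousOn (s := Icc K1 p))
    have hqmax' : ∀ t ∈ Icc K1 p, A t ≤ A q := fun t ht => hqmax ht
    apply hNo K1 (by linarith) q l hq.1 (by linarith [hq.2, hl.1]) (by linarith [hl.2])
    · intro t ht
      rw [hK1T] at ht
      rcases le_total t p with h | h
      · exact hqmax' t ⟨ht.1, h⟩
      · exact (hupper t ⟨h, ht.2⟩).trans (hqmax' p (right_mem_Icc.mpr hK1p))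
    · intro t ht
      rw [hK1T] at ht
      rcases le_total t p with h | h
      · exact (hcon t ⟨ht.1, h⟩).le
      · exact hlmin' t ⟨h, ht.2⟩
  obtain ⟨u0, hu0, hAu0⟩ := hex2
  have hcpt2 : IsCompact (Icc K1 p ∩ {t | A t ≤ A l}) :=
    isCompact_Icc.inter_right (isClosed_le hAc continuous_const)
  obtain ⟨K', hK', hK'max⟩ := hcpt2.exists_isGreatest ⟨u0, hu0, hAu0⟩
  have hK'1 : K1 ≤ K' := hK'.1.1
  have hK'2 : K' ≤ p := hK'.1.2
  have hK'3 : A K' ≤ A l := hK'.2
  have habove : ∀ t ∈ Ioc K' p, A l < A t := by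
    intro t ht
    by_contra hcon
    push Not at hcon
    have := hK'max ⟨⟨by linarith [ht.1], ht.2⟩, hcon⟩
    linarith [ht.1]
  have hlp : A l ≤ A p := hupper l hl
  have hK'eq : A K' = A l := by
    apply le_antisymm hK'3
    by_contra hcon
    push Not at hcon
    obtain ⟨u, hu, hAu⟩ := intermediate_value_Icc hK'2 hAc.continuousOn ⟨hcon.le, hlp⟩
    have h1 := hK'max ⟨⟨by linarith [hu.1], hu.2⟩, hAu.le⟩
    have h2 : u = K' := le_antisymm h1 hu.1
    rw [h2] at hAu
    linarith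
  -- the low bound on [K', K'+T]
  have hlow : ∀ t ∈ Icc K' (K' + T), A l - 2 * η ≤ A t := by
    intro t ht
    rcases le_total t p' with h | h
    · have : A l ≤ A t := by
        rcases le_total t p with h' | h'
        · rcases lt_or_eq_of_le ht.1 with h'' | h''
          · exact (habove t ⟨h'', h'⟩).le
          · rw [← h'', hK'eq]
        · exact hlmin' t ⟨h', h⟩
      linarith
    · have h3 := le_F hv S.hA (P := P0) (by linarith : P0 ≤ p') h
        (by linarith [ht.2] : t ≤ p' + T)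
      linarith
  -- the upper bound on [K1, K1+T]
  have hup : ∀ t ∈ Icc K1 (K1 + T), A t ≤ A p + 2 * η := by
    intro t ht
    rw [hK1T] at ht
    rcases le_total t p with h | h
    · have h3 := le_F hv S.hA (P := P0) (by linarith [ht.1] : P0 ≤ t)
        (by linarith [hl.1] : t ≤ l) (by linarith [hl.2, ht.1] : l ≤ t + T)
      linarith
    · have := hupper t ⟨h, ht.2⟩
      linarith
  obtain ⟨s, hs, hBs⟩ := S.h1 K1 (by linarith) _ hup
  obtain ⟨r, hr, hBr⟩ := S.h2 K' (by linarith) _ hlow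
  have hdist : |r - s| ≤ K' + T - K1 := by
    rw [abs_le]
    constructor
    · linarith [hr.1, hs.2]
    · linarith [hr.2, hs.1]
  have hB := S.hB r s
  have hB2 := le_abs_self (B r - B s)
  have hB3 : w * |r - s| ≤ w * (K' + T - K1) := mul_le_mul_of_nonneg_left hdist hw.le
  have hmain : L ≤ f + 4 * η + w * (K' + T - K1) := by linarith
  -- distances
  have d1 : f ≤ v * (p - K') := by
    have h1 := S.hA p K'
    rw [abs_of_nonneg (by linarith : (0:ℝ) ≤ p - K')] at h1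
    have h2 := le_abs_self (A p - A K')
    linarith
  have d2 : f ≤ v * (l - p) := by
    have h1 := S.hA p l
    rw [abs_sub_comm p l, abs_of_nonneg (by linarith [hl.1] : (0:ℝ) ≤ l - p)] at h1
    have h2 := le_abs_self (A p - A l)
    linarith
  have d3 : f ≤ v * (p' - l) := by
    have h1 := S.hA p' l
    rw [abs_of_nonneg (by linarith [hl.2] : (0:ℝ) ≤ p' - l)] at h1
    have h2 := le_abs_self (A p' - A l)
    linarith
  have e1 : f / v ≤ p - K' := by rw [div_le_iff₀ hv]; linarith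
  have e2 : f / v ≤ l - p := by rw [div_le_iff₀ hv]; linarith
  have e3 : f / v ≤ p' - l := by rw [div_le_iff₀ hv]; linarith
  have hfT : 2 * f ≤ v * T := by
    have : v * (p' - p) ≤ v * T := mul_le_mul_of_nonneg_left (by linarith) hv.le
    nlinarith
  have hfin : L - 4 * η ≤ f + w * (2 * T - 3 * (f / v)) := by
    have : w * (K' + T - K1) ≤ w * (2 * T - 3 * (f / v)) :=
      mul_le_mul_of_nonneg_left (by linarith) hw.le
    linarith
  have := arith' hv hw hf0 hfT hfin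
  linarith

/-- The one-dimensional theorem. -/
theorem Sys.main {A B : ℝ → ℝ} {v w T L : ℝ} (S : Sys A B v w T L) (hv : 0 < v) (hw : 0 < w)
    (hT : 0 < T) : L ≤ max (2 * w * T) ((v + w) * T / 2) := by
  by_contra hcon
  push Not at hcon
  rcases S.dichotomy hv hw hT hcon with h | h
  · exact S.step3 hv hw hT hcon h
  · exact S.reflect.step3 hv hw hT hcon h

end CP
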