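import Pool.Agent.Helper59.CP.Sorted

/-!
Exact optimal idle time for one fast agent and `n` slow agents of equal speed when every agent is
indispensable.
-/

open Set

namespace CP

variable {n : ℕ} {v ε : Fin (n + 1) → ℝ} {w : ℝ}

theorem covN_of_idle_lt {A : Fin (n + 1) → ℝ → ℝ} {a : Fin (n + 1) → ℝ → UnitAddCircle} {T : ℝ}
    (hA : ∀ i t, 0 ≤ t → (A i t : UnitAddCircle) = a i t)
    (h : idle ε a < ENNReal.ofReal T) : CovN A ε T := by
  intro K hK y
  have h1 : idleAt ε a (y : UnitAddCircle) < ENNReal.ofReal T :=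
    lt_of_le_of_lt (le_iSup (fun x => idleAt ε a x) _) h
  unfold idleAt at h1
  simp only [iInf_lt_iff] at h1
  obtain ⟨T', ⟨hT'0, hT'⟩, hlt⟩ := h1
  have hTT : T' < T := by
    by_contra hcon
    push Not at hcon
    exact absurd hlt (not_lt.mpr (ENNReal.ofReal_le_ofReal hcon))
  obtain ⟨t, ht, i, hi⟩ := hT' K hK
  have ht0 : 0 ≤ t := hK.trans ht.1
  rw [← hA i t ht0] at hi
  obtain ⟨m, hm⟩ := exists_int_of_dist hi
  exact ⟨i, t, ⟨ht.1, by linarith [ht.2]⟩, m, hm⟩

/-- the trichotomy for consecutive agents -/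
theorem tri {A : Fin (n + 1) → ℝ → ℝ} {π : Equiv.Perm (Fin (n + 1))} {c0 : ℝ} (h0 : π 0 = 0)
    (hord : ∀ i, i ≠ 0 → ∀ t, c0 ≤ t → A 0 t < A i t ∧ A i t < A 0 t + 1)
    (hs : ∀ a b, a < b → ∀ t, c0 ≤ t → A (π a) t < A (π b) t) :
    (∀ a b : Fin (n + 1), (b : ℕ) = a + 1 → ∀ (i : Fin (n + 1)) (m : ℤ),
      (i = π a ∧ m = 0) ∨ (i = π b ∧ m = 0) ∨
      (∀ t, c0 ≤ t → A i t + m < A (π a) t + (0 : ℤ)) ∨
      (∀ t, c0 ≤ t → A (π b) t + (0 : ℤ) < A i t + m)) ∧
    (∀ (i : Fin (n + 1)) (m : ℤ),
      (i = π (Fin.last n) ∧ m = 0) ∨ (i = π 0 ∧ m = 1) ∨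
      (∀ t, c0 ≤ t → A i t + m < A (π (Fin.last n)) t + (0 : ℤ)) ∨
      (∀ t, c0 ≤ t → A (π 0) t + (1 : ℤ) < A i t + m)) := by
  have hlow : ∀ i t, c0 ≤ t → A 0 t ≤ A i t := by
    intro i t ht
    by_cases hi : i = 0
    · rw [hi]
    · exact (hord i hi t ht).1.le
  have hhigh : ∀ i t, c0 ≤ t → A i t < A 0 t + 1 := by
    intro i t ht
    by_cases hi : i = 0
    · rw [hi]; linarith
    · exact (hord i hi t ht).2
  constructor
  · intro a b hab i m
    obtain ⟨c, rfl⟩ := π.surjective i
    rcases lt_trichotomy m 0 with hm | hm | hm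
    · right; right; left
      intro t ht
      have h1 : (m : ℝ) ≤ -1 := by
        have : m ≤ -1 := by omega
        exact_mod_cast this
      have h2 := hhigh (π c) t ht
      have h3 := hlow (π a) t ht
      push_cast
      linarith
    · subst hm
      rcases lt_trichotomy c a with h | h | h
      · right; right; left
        intro t ht
        have := hs c a h t ht
        linarith
      · left
        exact ⟨by rw [h], rfl⟩
      · rcases eq_or_ne c b with h' | h'
        · right; left
          exact ⟨by rw [h'], rfl⟩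
        · right; right; right
          intro t ht
          have h4 : b < c := by
            rw [Fin.lt_def] at h ⊢
            have : (c : ℕ) ≠ b := fun h5 => h' (Fin.ext h5)
            omega
          have := hs b c h4 t ht
          linarith
    · right; right; right
      intro t ht
      have h1 : (1 : ℝ) ≤ m := by
        have : 1 ≤ m := by omega
        exact_mod_cast this
      have h2 := hhigh (π b) t ht
      have h3 := hlow (π c) t ht
      push_cast
      linarith
  · intro i m
    obtain ⟨c, rfl⟩ := π.surjective i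
    rcases lt_trichotomy m 0 with hm | hm | hm
    · right; right; left
      intro t ht
      have h1 : (m : ℝ) ≤ -1 := by
        have : m ≤ -1 := by omega
        exact_mod_cast this
      have h2 := hhigh (π c) t ht
      have h3 := hlow (π (Fin.last n)) t ht
      push_cast
      linarith
    · subst hm
      rcases eq_or_ne c (Fin.last n) with h | h
      · left
        exact ⟨by rw [h], rfl⟩
      · right; right; left
        intro t ht
        have := hs c (Fin.last n) (Fin.lt_last_iff_ne_last.mpr h) t ht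
        linarith
    · rcases eq_or_ne m 1 with h1 | h1
      · subst h1
        rcases eq_or_ne c 0 with h | h
        · right; left
          exact ⟨by rw [h], rfl⟩
        · right; right; right
          intro t ht
          have := hs 0 c (Fin.pos_iff_ne_zero.mpr h) t ht
          linarith
      · right; right; right
        intro t ht
        have h2 : (2 : ℝ) ≤ m := by
          have : 2 ≤ m := by omega
          exact_mod_cast this
        have h3 := hlow (π c) t ht
        rw [h0]
        have h4 : A 0 t ≤ A 0 t := le_rfl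
        push_cast
        linarith

/-- the value -/
noncomputable def famVal (n : ℕ) (v w s : ℝ) : ℝ := (1 - 2 * s) / (n * w + max w ((v - w) / 2))

theorem fam_lower (hn : 1 ≤ n) (hw : 0 < w) (hv0 : w ≤ v 0) (hvs : ∀ i, i ≠ 0 → v i = w)
    (hε : ∀ i, 0 ≤ ε i) (hL : 0 < 1 - 2 * ∑ i, ε i)
    (hind : ∀ i, i ≠ 0 → (v 0 + (n - 1) * w) * famVal n (v 0) w (∑ i, ε i) ≤
      1 - 2 * (∑ i, ε i) + 2 * ε i)
    {a : Fin (n + 1) → ℝ → UnitAddCircle} (ha : IsTraversal v a) :
    ENNReal.ofReal (famVal n (v 0) w (∑ i, ε i)) ≤ idle ε a := by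
  by_contra hcon
  push Not at hcon
  have hv0' : 0 < v 0 := lt_of_lt_of_le hw hv0
  have hvpos : ∀ i, 0 < v i := by
    intro i
    by_cases hi : i = 0
    · rw [hi]; exact hv0'
    · rw [hvs i hi]; exact hw
  have hn' : (1 : ℝ) ≤ n := by exact_mod_cast hn
  obtain ⟨b, hb1, hb2⟩ := exists_between hcon
  have hbtop : b ≠ ⊤ := (lt_of_lt_of_le hb2 le_top).ne
  have hbpos : 0 < b := lt_of_le_of_lt bot_le hb1
  set T := b.toReal with hT
  have hT0 : 0 < T := ENNReal.toReal_pos hbpos.ne' hbtop
  have hbT : b = ENNReal.ofReal T := (ENNReal.ofReal_toReal hbtop).symm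
  rw [hbT] at hb1 hb2
  have hTval : T < famVal n (v 0) w (∑ i, ε i) := by
    by_contra hc
    push Not at hc
    exact absurd hb2 (not_lt.mpr (ENNReal.ofReal_le_ofReal hc))
  set Φ : ℝ := n * w + max w ((v 0 - w) / 2) with hΦ
  have hΦpos : 0 < Φ := by
    have h1 : 0 < (n : ℝ) * w := by positivity
    have h2 := le_max_left w ((v 0 - w) / 2)
    linarith
  set s : ℝ := ∑ i, ε i with hs
  have hTΦ : T * Φ < 1 - 2 * s := by
    unfold famVal at hTval
    rw [← hΦ] at hTval
    exact (lt_div_iff₀ hΦpos).mp hTval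
  have hstar : famVal n (v 0) w s * Φ = 1 - 2 * s := by
    unfold famVal
    rw [← hΦ]
    exact div_mul_cancel₀ _ hΦpos.ne'
  -- lifts
  have hex : ∀ i, ∃ A : ℝ → ℝ, (∀ t, 0 ≤ t → (A t : UnitAddCircle) = a i t) ∧
      ∀ s t, |A s - A t| ≤ v i * |s - t| := fun i => exists_lift (hvpos i) (ha i).1 (ha i).2
  choose A hA1 hA2 using hex
  have hcov : CovN A ε T := covN_of_idle_lt hA1 hb1
  -- total length of all arcs but one
  have hsumv : ∑ i, v i = v 0 + n * w := by
    rw [Fin.sum_univ_succ]
    congr 1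
    rw [Finset.sum_congr rfl (fun i _ => hvs (Fin.succ i) (Fin.succ_ne_zero i))]
    simp
  have hsum : ∀ j, ∑ i ∈ Finset.univ.erase j, (2 * ε i + v i * T) < 1 := by
    intro j
    have h1 : ∑ i ∈ Finset.univ.erase j, (2 * ε i + v i * T) =
        (∑ i, (2 * ε i + v i * T)) - (2 * ε j + v j * T) := by
      rw [← Finset.add_sum_erase _ _ (Finset.mem_univ j)]
      ring
    have h2 : ∑ i, (2 * ε i + v i * T) = 2 * s + (v 0 + n * w) * T := by
      rw [Finset.sum_add_distrib, ← Finset.mul_sum, ← Finset.sum_mul, hsumv]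
    rw [h1, h2]
    by_cases hj : j = 0
    · subst hj
      have h3 : (n : ℝ) * w ≤ Φ := by
        have h2 := le_max_left w ((v 0 - w) / 2)
        linarith
      have h4 : (n : ℝ) * w * T ≤ T * Φ := by
        rw [mul_comm T]
        exact mul_le_mul_of_nonneg_right h3 hT0.le
      have := hε 0
      linarith
    · have h3 := hind j hj
      rw [hvs j hj]
      have h4 : 0 < v 0 + (n - 1) * w := by nlinarith
      have h5 : (v 0 + (n - 1) * w) * T < (v 0 + (n - 1) * w) * famVal n (v 0) w s :=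
        mul_lt_mul_of_pos_left hTval h4
      linarith
  obtain ⟨A', hA', hcov', hord⟩ := normalise (fun i => (hvpos i).le) hT0.le hε hA2 hsum hcov
  obtain ⟨π, hπ0, hsort⟩ := sorted (fun i => (hvpos i).le) hT0.le hε hA' hsum hcov' hord
  obtain ⟨htri1, htri2⟩ := tri hπ0 hord hsort
  -- the chain
  set B : ℕ → ℝ → ℝ := fun q => if h : q < n + 1 then A' (π ⟨q, h⟩) else fun _ => 0 with hB
  set e : ℕ → ℝ := fun q => if h : q < n + 1 then ε (π ⟨q, h⟩) else 0 with he
  have hBq : ∀ q (h : q < n + 1), B q = A' (π ⟨q, h⟩) := by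
    intro q h
    rw [hB]
    simp only [dif_pos h]
  have heq : ∀ q (h : q < n + 1), e q = ε (π ⟨q, h⟩) := by
    intro q h
    rw [he]
    simp only [dif_pos h]
  have hzero : (⟨0, Nat.succ_pos n⟩ : Fin (n + 1)) = 0 := rfl
  have hlast : (⟨n, Nat.lt_succ_self n⟩ : Fin (n + 1)) = Fin.last n := rfl
  have hB0 : B 0 = A' 0 := by rw [hBq 0 (Nat.succ_pos n), hzero, hπ0]
  have he0 : e 0 = ε 0 := by rw [heq 0 (Nat.succ_pos n), hzero, hπ0]
  have hmain := chain_bound (B := B) (e := e) hn hv0' hw hT0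
    (by rw [hB0]; exact hA' 0)
    (by
      intro q hq1 hq2
      rw [hBq q (by omega)]
      have hne : π ⟨q, by omega⟩ ≠ 0 := by
        intro h
        rw [← hπ0] at h
        have h2 := π.injective h
        rw [Fin.ext_iff] at h2
        simp only [Fin.val_zero] at h2
        omega
      have := hA' (π ⟨q, by omega⟩)
      rw [hvs _ hne] at this
      exact this)
    (by
      intro q hq K hK
      have h1 := htri1 ⟨q, by omega⟩ ⟨q + 1, by omega⟩ rfl
      obtain ⟨t, ht, t', ht', h2⟩ := gap_lemma (fun i => (hvpos i).le) hT0.le hε hA' hsum hcov'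
        (by linarith : (0:ℝ) ≤ T / 2) h1 hK
      refine ⟨t, ht, t', ht', ?_⟩
      rw [hBq q (by omega), hBq (q + 1) (by omega), heq q (by omega), heq (q + 1) (by omega)]
      push_cast at h2
      linarith)
    (by
      intro K hK
      obtain ⟨t, ht, t', ht', h2⟩ := gap_lemma (fun i => (hvpos i).le) hT0.le hε hA' hsum hcov'
        (by linarith : (0:ℝ) ≤ T / 2) htri2 hK
      refine ⟨t, ht, t', ht', ?_⟩
      rw [hBq 0 (Nat.succ_pos n), hBq n (Nat.lt_succ_self n), heq 0 (Nat.succ_pos n),
        heq n (Nat.lt_succ_self n), hzero, hlast]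
      push_cast at h2
      linarith)
  -- the sum of the radii
  have hsumε : e 0 + ∑ i ∈ Finset.range n, e (1 + i) = s := by
    have h1 : ∑ i ∈ Finset.range (n + 1), e i = s := by
      rw [Finset.sum_range]
      rw [hs, ← Equiv.sum_comp π ε]
      apply Finset.sum_congr rfl
      intro i _
      rw [heq i i.2]
    rw [← h1, Finset.sum_range_succ', add_comm]
    congr 1
    apply Finset.sum_congr rfl
    intro i _
    rw [add_comm 1 i]
  rw [hsumε] at hmain
  have h9 : ((n : ℝ) - 1) * (w * T) + max (2 * w * T) ((v 0 + w) * T / 2) = T * Φ := by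
    rw [hΦ, mul_add]
    rcases le_total w ((v 0 - w) / 2) with h | h
    · rw [max_eq_right h, max_eq_right]
      · ring
      · nlinarith
    · rw [max_eq_left h, max_eq_left]
      · ring
      · nlinarith
  rw [h9] at hmain
  linarith

theorem fam_main (hn : 1 ≤ n) (hw : 0 < w) (hv0 : w ≤ v 0) (hvs : ∀ i, i ≠ 0 → v i = w)
    (hε : ∀ i, 0 ≤ ε i) (hL : 0 < 1 - 2 * ∑ i, ε i)
    (hind : ∀ i, i ≠ 0 → (v 0 + (n - 1) * w) * famVal n (v 0) w (∑ i, ε i) ≤
      1 - 2 * (∑ i, ε i) + 2 * ε i) :
    Iopt v ε = ENNReal.ofReal (famVal n (v 0) w (∑ i, ε i)) ∧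
      ∃ a, IsTraversal v a ∧ idle ε a = Iopt v ε := by
  have hv0' : 0 < v 0 := lt_of_lt_of_le hw hv0
  have hvpos : ∀ i, 0 < v i := by
    intro i
    by_cases hi : i = 0
    · rw [hi]; exact hv0'
    · rw [hvs i hi]; exact hw
  have hwle : ∀ i, w ≤ v i := by
    intro i
    by_cases hi : i = 0
    · rw [hi]; exact hv0
    · rw [hvs i hi]
  obtain ⟨a, ha, hle⟩ := frame_attained (Nat.succ_pos n) hvpos hε hw.le hwle hL
  have hgain : ∑ i, gain (v i) w = n * w + max w ((v 0 - w) / 2) := by
    rw [Fin.sum_univ_succ, add_comm]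
    congr 1
    rw [Finset.sum_congr rfl (fun i _ => by rw [hvs (Fin.succ i) (Fin.succ_ne_zero i)])]
    have : gain w w = w := by
      unfold gain
      rw [sub_self, zero_div]
      exact max_eq_left hw.le
    rw [this]
    simp
  rw [hgain] at hle
  have hI : Iopt v ε = ENNReal.ofReal (famVal n (v 0) w (∑ i, ε i)) := by
    apply le_antisymm
    · exact (iInf₂_le a ha).trans hle
    · exact le_iInf₂ fun a ha => fam_lower hn hw hv0 hvs hε hL hind ha
  refine ⟨hI, a, ha, ?_⟩
  rw [hI]
  exact le_antisymm hle (fam_lower hn hw hv0 hvs hε hL hind ha)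

end CP
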