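import Pool.Agent.Helper59.CP.Upper
import Pool.Agent.Helper59.CP.Draw

/-!
The optimal idle time of two agents.
-/

open Set

namespace CP

variable {v1 v2 e1 e2 : ℝ}

/-- the covering hypothesis for the lifts -/
theorem cov_of_idle_lt {A B : ℝ → ℝ} {a : Fin 2 → ℝ → UnitAddCircle} {T : ℝ}
    (hA : ∀ t, 0 ≤ t → (A t : UnitAddCircle) = a 0 t)
    (hB : ∀ t, 0 ≤ t → (B t : UnitAddCircle) = a 1 t)
    (h : idle ![e1, e2] a < ENNReal.ofReal T) : Cov A B e1 e2 T := by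
  intro K hK y
  have h1 : idleAt ![e1, e2] a (y : UnitAddCircle) < ENNReal.ofReal T :=
    lt_of_le_of_lt (le_iSup (fun x => idleAt ![e1, e2] a x) _) h
  unfold idleAt at h1
  simp only [iInf_lt_iff] at h1
  obtain ⟨T', ⟨hT'0, hT'⟩, hlt⟩ := h1
  have hTT : T' < T := by
    by_contra hcon
    push Not at hcon
    exact absurd hlt (not_lt.mpr (ENNReal.ofReal_le_ofReal hcon))
  obtain ⟨t, ht, i, hi⟩ := hT' K hK
  refine ⟨t, ⟨ht.1, by linarith [ht.2]⟩, ?_⟩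
  have ht0 : 0 ≤ t := hK.trans ht.1
  fin_cases i
  · simp only [Fin.zero_eta, Matrix.cons_val_zero] at hi
    rw [← hA t ht0] at hi
    obtain ⟨n, hn⟩ := exists_int_of_dist hi
    exact ⟨n, Or.inl hn⟩
  · simp only [Fin.mk_one, Matrix.cons_val_one, Matrix.cons_val_fin_one] at hi
    rw [← hB t ht0] at hi
    obtain ⟨n, hn⟩ := exists_int_of_dist hi
    exact ⟨n, Or.inr hn⟩

/-- the lower bound -/
theorem lower (h2 : 0 < v2) (h12 : v2 ≤ v1) (he1 : 0 ≤ e1) (he2 : 0 ≤ e2)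
    {a : Fin 2 → ℝ → UnitAddCircle} (ha : IsTraversal ![v1, v2] a) :
    ENNReal.ofReal (val v1 v2 e1 e2) ≤ idle ![e1, e2] a := by
  by_contra hcon
  push Not at hcon
  have h1 : 0 < v1 := lt_of_lt_of_le h2 h12
  obtain ⟨b, hb1, hb2⟩ := exists_between hcon
  have hbtop : b ≠ ⊤ := (lt_of_lt_of_le hb2 le_top).ne
  have hbpos : 0 < b := lt_of_le_of_lt bot_le hb1
  set T := b.toReal with hT
  have hT0 : 0 < T := ENNReal.toReal_pos hbpos.ne' hbtop
  have hbT : b = ENNReal.ofReal T := (ENNReal.ofReal_toReal hbtop).symm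
  rw [hbT] at hb1 hb2
  have hTval : T < val v1 v2 e1 e2 := by
    by_contra hc
    push Not at hc
    exact absurd hb2 (not_lt.mpr (ENNReal.ofReal_le_ofReal hc))
  have ht1 : T < (1 - 2 * e1) / v1 := lt_of_lt_of_le hTval (min_le_left _ _)
  have ht2 : T < (1 - 2 * e1 - 2 * e2) / (2 * v2) :=
    lt_of_lt_of_le hTval ((min_le_right _ _).trans (min_le_left _ _))
  have ht3 : T < 2 * (1 - 2 * e1 - 2 * e2) / (v1 + v2) :=
    lt_of_lt_of_le hTval ((min_le_right _ _).trans (min_le_right _ _))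
  rw [lt_div_iff₀ h1] at ht1
  rw [lt_div_iff₀ (by linarith)] at ht2
  rw [lt_div_iff₀ (by linarith)] at ht3
  obtain ⟨hc0, hl0⟩ := ha 0
  obtain ⟨hc1, hl1⟩ := ha 1
  simp only [Matrix.cons_val_zero] at hl0
  simp only [Matrix.cons_val_one, Matrix.cons_val_fin_one] at hl1
  obtain ⟨A, hA, hAl⟩ := exists_lift h1 hc0 hl0
  obtain ⟨B, hB, hBl⟩ := exists_lift h2 hc1 hl1
  have hcov := cov_of_idle_lt hA hB hb1
  have hvT : 0 < v2 * T := mul_pos h2 hT0
  obtain ⟨c, S⟩ := sys_of_cov h1.le h2.le hAl hBl hT0.le (by linarith) (by linarith)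
    (by linarith) hcov
  have := S.main h1 h2 hT0
  rcases le_max_iff.mp this with h | h <;> linarith

theorem main (h2 : 0 < v2) (h12 : v2 ≤ v1) (he1 : 0 ≤ e1) (he2 : 0 ≤ e2) :
    Iopt ![v1, v2] ![e1, e2] = ENNReal.ofReal (val v1 v2 e1 e2) ∧
      ∃ a, IsTraversal ![v1, v2] a ∧ idle ![e1, e2] a = Iopt ![v1, v2] ![e1, e2] := by
  obtain ⟨a, ha, hle⟩ := upper h2 h12 he1 he2
  have hI : Iopt ![v1, v2] ![e1, e2] = ENNReal.ofReal (val v1 v2 e1 e2) := by
    apply le_antisymm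
    · exact (iInf₂_le a ha).trans hle
    · exact le_iInf₂ fun a ha => lower h2 h12 he1 he2 ha
  refine ⟨hI, a, ha, ?_⟩
  rw [hI]
  exact le_antisymm hle (lower h2 h12 he1 he2 ha)

end CP
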