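import Pool.Agent.Helper59.CP.Upper

/-!
Moving frame strategies: every agent either walks at speed `u` or makes asymmetric zigzags with
average speed `u`; upper bound for the optimal idle time of `k` agents.
-/

open Set

namespace CP

/-- the algorithm given by real paths -/
def coeAlg {k : ℕ} (A : Fin k → ℝ → ℝ) : Fin k → ℝ → UnitAddCircle :=
  fun i t => (A i t : UnitAddCircle)

theorem isTraversal_coeAlg {k : ℕ} {v : Fin k → ℝ} {A : Fin k → ℝ → ℝ}
    (hA : ∀ i s t, |A i s - A i t| ≤ v i * |s - t|) : IsTraversal v (coeAlg A) := by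
  have hcoe : Continuous ((↑) : ℝ → UnitAddCircle) := AddCircle.continuous_mk' (1 : ℝ)
  intro i
  refine ⟨(hcoe.comp (lip_cont (hA i))).continuousOn, ?_⟩
  intro t s _ hs _
  have h1 := dist_coe_le (A i t) (A i (t + s)) 0
  have h2 := hA i t (t + s)
  have h3 : |t - (t + s)| = s := by
    rw [show t - (t + s) = -s by ring, abs_neg, abs_of_pos hs]
  rw [h3] at h2
  simp only [Int.cast_zero, sub_zero] at h1
  exact h1.trans h2

theorem idle_coeAlg_le {k : ℕ} {ε : Fin k → ℝ} {A : Fin k → ℝ → ℝ} {T : ℝ} (hT : 0 < T)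
    (h : ∀ K, 0 ≤ K → ∃ c : ℝ, ∀ y, c ≤ y → y ≤ c + 1 →
      ∃ i, ∃ t ∈ Icc K (K + T), |A i t - y| ≤ ε i) :
    idle ε (coeAlg A) ≤ ENNReal.ofReal T := by
  unfold idle
  apply iSup_le
  intro x
  unfold idleAt
  apply iInf₂_le
  refine ⟨hT, ?_⟩
  intro K hK
  obtain ⟨c, hc⟩ := h K hK
  have : Fact ((0 : ℝ) < 1) := ⟨one_pos⟩
  set y := (AddCircle.equivIco 1 c x : ℝ) with hy
  have hyx : (y : UnitAddCircle) = x := AddCircle.coe_equivIco
  have hyc : y ∈ Ico c (c + 1) := (AddCircle.equivIco 1 c x).2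
  obtain ⟨i, t, ht, h1⟩ := hc y hyc.1 hyc.2.le
  refine ⟨t, ht, i, ?_⟩
  have h2 := dist_coe_le (A i t) y 0
  simp only [Int.cast_zero, sub_zero] at h2
  rw [← hyx]
  exact h2.trans h1

/-- A path `f` is a `(u, g)`-sweeper for windows of length `T`: in every window `[K, K+T]` it is
at some time at most `u K` and at some time at least `u K + g T`. -/
def Sweeps (f : ℝ → ℝ) (u g T : ℝ) : Prop :=
  ∀ K : ℝ, (∃ t ∈ Icc K (K + T), f t ≤ u * K) ∧ (∃ t ∈ Icc K (K + T), u * K + g * T ≤ f t)

theorem sweeps_linear {u T : ℝ} (hT : 0 ≤ T) : Sweeps (fun t => u * t) u u T := by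
  intro K
  exact ⟨⟨K, left_mem_Icc.mpr (by linarith), le_rfl⟩,
    ⟨K + T, right_mem_Icc.mpr (by linarith), by linarith [mul_add u K T]⟩⟩

/-- asymmetric zigzag with drift `u`, shifted down by `u T`: lower envelope of cones of slope `v`
with vertices on a line of slope `u` -/
noncomputable def azz (v u T t : ℝ) : ℝ :=
  (⨅ n : ℤ, (u * (n * (v * T / (v - u))) + v * |t - n * (v * T / (v - u))|)) - u * T

section azz

variable {v u T : ℝ}

theorem azz_bdd (hu : 0 ≤ u) (huv : u ≤ v) (τ t : ℝ) :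
    BddBelow (range fun n : ℤ => u * (n * τ) + v * |t - n * τ|) := by
  refine ⟨u * t, ?_⟩
  rintro _ ⟨n, rfl⟩
  simp only
  have h1 := le_abs_self (t - n * τ)
  have h2 : u * (t - n * τ) ≤ u * |t - n * τ| := mul_le_mul_of_nonneg_left h1 hu
  have h3 : u * |t - n * τ| ≤ v * |t - n * τ| := mul_le_mul_of_nonneg_right huv (abs_nonneg _)
  linarith

theorem azz_le (hu : 0 ≤ u) (huv : u ≤ v) (t : ℝ) (n : ℤ) :
    azz v u T t ≤ u * (n * (v * T / (v - u))) + v * |t - n * (v * T / (v - u))| - u * T := by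
  unfold azz
  have := ciInf_le (azz_bdd hu huv (v * T / (v - u)) t) n
  linarith

theorem le_azz {t x : ℝ} (h : ∀ n : ℤ, x ≤ u * (n * (v * T / (v - u))) +
    v * |t - n * (v * T / (v - u))| - u * T) : x ≤ azz v u T t := by
  unfold azz
  have := le_ciInf (f := fun n : ℤ => u * (n * (v * T / (v - u))) + v * |t - n * (v * T / (v - u))|)
    (c := x + u * T) (fun n => by have := h n; linarith)
  linarith

theorem azz_lip (hu : 0 ≤ u) (huv : u ≤ v) : ∀ s t, |azz v u T s - azz v u T t| ≤ v * |s - t| := by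
  have key : ∀ s t, azz v u T s - v * |s - t| ≤ azz v u T t := by
    intro s t
    apply le_azz
    intro n
    have h1 := azz_le (T := T) hu huv s n
    have h2 : |s - n * (v * T / (v - u))| ≤ |s - t| + |t - n * (v * T / (v - u))| :=
      abs_sub_le _ _ _
    have h3 := mul_le_mul_of_nonneg_left h2 (hu.trans huv)
    linarith
  intro s t
  rw [abs_le]
  have h1 := key s t
  have h2 := key t s
  rw [abs_sub_comm t s] at h2
  constructor <;> linarith

theorem sweeps_azz (hu : 0 ≤ u) (huv : u < v) (hT : 0 < T) :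
    Sweeps (azz v u T) u ((v - u) / 2) T := by
  have hv : 0 < v := lt_of_le_of_lt hu huv
  set τ := v * T / (v - u) with hτ
  have hvu : 0 < v - u := by linarith
  have hτ0 : 0 < τ := div_pos (mul_pos hv hT) hvu
  have hτ1 : (v - u) * τ = v * T := by rw [hτ]; field_simp
  have hle := fun t n => azz_le (T := T) hu huv.le t n
  rw [← hτ] at hle
  have hge := fun t x => le_azz (v := v) (u := u) (T := T) (t := t) (x := x)
  rw [← hτ] at hge
  intro K
  constructor
  · -- low
    have c1 := Int.le_ceil (K / τ)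
    have c2 := Int.ceil_lt_add_one (K / τ)
    set n := ⌈K / τ⌉ with hn
    rw [div_le_iff₀ hτ0] at c1
    have c2' : (n : ℝ) * τ < K + τ := by
      have h2 : (n : ℝ) * τ < (K / τ + 1) * τ := mul_lt_mul_of_pos_right c2 hτ0
      have h3 : (K / τ + 1) * τ = K + τ := by field_simp
      linarith
    rcases le_or_gt ((n : ℝ) * τ) (K + T) with h | h
    · refine ⟨n * τ, ⟨c1, h⟩, ?_⟩
      have h1 := hle (n * τ) n
      rw [sub_self, abs_zero, mul_zero, add_zero] at h1
      have h2 : u * ((n : ℝ) * τ) ≤ u * (K + T) := mul_le_mul_of_nonneg_left h hu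
      linarith
    · refine ⟨K, left_mem_Icc.mpr (by linarith), ?_⟩
      have h1 := hle K (n - 1)
      push_cast at h1
      have h2 : 0 ≤ K - ((n : ℝ) - 1) * τ := by linarith
      rw [abs_of_nonneg h2] at h1
      have h3 : (v - u) * (K + T) ≤ (v - u) * ((n : ℝ) * τ) := mul_le_mul_of_nonneg_left h.le hvu.le
      nlinarith
  · -- high
    set m := ⌈(K + T / 2 - τ) / τ⌉ with hm
    have c1 := Int.le_ceil ((K + T / 2 - τ) / τ)
    have c2 := Int.ceil_lt_add_one ((K + T / 2 - τ) / τ)
    rw [← hm] at c1 c2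
    rw [div_le_iff₀ hτ0] at c1
    have c2' : (m : ℝ) * τ < K + T / 2 := by
      have h2 : (m : ℝ) * τ < ((K + T / 2 - τ) / τ + 1) * τ := mul_lt_mul_of_pos_right c2 hτ0
      have h3 : ((K + T / 2 - τ) / τ + 1) * τ = K + T / 2 := by field_simp; ring
      linarith
    -- the peak p = (m + 1) τ - T / 2 ≥ K
    set p : ℝ := m * τ + τ - T / 2 with hp
    have hpK : K ≤ p := by linarith
    -- lower bound of the envelope at a point t of [.., p]
    have lower : ∀ t x : ℝ, (m : ℝ) * τ ≤ t → t ≤ p → x ≤ v * t - (v - u) * (m * τ) - u * T →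
        x ≤ u * K + (v - u) / 2 * T → x ≤ azz v u T t := by
      intro t x ht1 ht2 hx1 hx2
      apply hge
      intro n
      rcases le_or_gt n m with h | h
      · have h1 : (n : ℝ) ≤ m := by exact_mod_cast h
        have h2 := le_abs_self (t - n * τ)
        have h3 : v * (t - n * τ) ≤ v * |t - n * τ| := mul_le_mul_of_nonneg_left h2 hv.le
        have h4 : (v - u) * ((n : ℝ) * τ) ≤ (v - u) * (m * τ) :=
          mul_le_mul_of_nonneg_left (mul_le_mul_of_nonneg_right h1 hτ0.le) hvu.le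
        nlinarith
      · have h1 : (m : ℝ) + 1 ≤ n := by exact_mod_cast h
        have h2 := neg_le_abs (t - n * τ)
        have h3 : v * (n * τ - t) ≤ v * |t - n * τ| :=
          mul_le_mul_of_nonneg_left (by linarith) hv.le
        have h4 : (v + u) * (((m : ℝ) + 1) * τ) ≤ (v + u) * (n * τ) :=
          mul_le_mul_of_nonneg_left (mul_le_mul_of_nonneg_right h1 hτ0.le) (by linarith)
        have h5 : v * t ≤ v * p := mul_le_mul_of_nonneg_left ht2 hv.le
        have h6 : u * K ≤ u * p := mul_le_mul_of_nonneg_left hpK hu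
        have h7 : (v + u) * (((m : ℝ) + 1) * τ) - v * p = u * p + (v + u) * (T / 2) := by
          rw [hp]; ring
        nlinarith
    rcases le_or_gt p (K + T) with h | h
    · refine ⟨p, ⟨hpK, h⟩, ?_⟩
      have h2 : T ≤ τ := by
        have : (v - u) * T ≤ (v - u) * τ := by
          rw [hτ1]
          nlinarith
        exact le_of_mul_le_mul_left this hvu
      apply lower p _ (by linarith) le_rfl _ (by linarith)
      have h6 : u * K ≤ u * p := mul_le_mul_of_nonneg_left hpK hu
      have h7 : v * p - (v - u) * (m * τ) = u * p + (v - u) * τ - (v - u) * (T / 2) := by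
        rw [hp]; ring
      rw [h7, hτ1]
      nlinarith
    · refine ⟨K + T, right_mem_Icc.mpr (by linarith), ?_⟩
      apply lower (K + T) _ (by linarith) h.le _ (by linarith)
      have h8 : (v - u) * (m * τ) ≤ (v - u) * (K + T / 2) :=
        mul_le_mul_of_nonneg_left c2'.le hvu.le
      nlinarith

end azz

/-- the best gain of an agent of speed `v` in a frame of speed `u` -/
noncomputable def gain (v u : ℝ) : ℝ := max u ((v - u) / 2)

theorem exists_sweeper {v u T : ℝ} (hu : 0 ≤ u) (huv : u ≤ v) (hT : 0 < T) :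
    ∃ f : ℝ → ℝ, (∀ s t, |f s - f t| ≤ v * |s - t|) ∧ Sweeps f u (gain v u) T := by
  unfold gain
  rcases max_choice u ((v - u) / 2) with h | h
  · rw [h]
    refine ⟨fun t => u * t, ?_, sweeps_linear hT.le⟩
    have := lip_weaken huv (lip_lin u 0 hu)
    simpa using this
  · rw [h]
    rcases huv.eq_or_lt with h' | h'
    · refine ⟨fun t => u * t, ?_, ?_⟩
      · have := lip_weaken huv (lip_lin u 0 hu)
        simpa using this
      · intro K
        obtain ⟨⟨t, ht, h1⟩, ⟨s, hs, h2⟩⟩ := sweeps_linear (u := u) hT.le K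
        refine ⟨⟨t, ht, h1⟩, ⟨s, hs, ?_⟩⟩
        rw [← h']
        have : 0 ≤ u * T := mul_nonneg hu hT.le
        simp only at h2 ⊢
        linarith
    · exact ⟨azz v u T, azz_lip hu huv, sweeps_azz hu h' hT⟩

/-- a point between the first and the last value of a sequence lies between two consecutive ones -/
theorem exists_between_seq (P : ℕ → ℝ) (k : ℕ) (hk : 0 < k) {y : ℝ} (h0 : P 0 ≤ y)
    (h1 : y ≤ P k) : ∃ i, i < k ∧ P i ≤ y ∧ y ≤ P (i + 1) := by
  induction k with
  | zero => omega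
  | succ k ih =>
    rcases Nat.eq_zero_or_pos k with h | h
    · subst h
      exact ⟨0, by omega, h0, h1⟩
    · rcases le_total y (P k) with h2 | h2
      · obtain ⟨i, hi, hi2⟩ := ih h h2
        exact ⟨i, by omega, hi2⟩
      · exact ⟨k, by omega, h2, h1⟩

/-- Tiling by sweepers. -/
theorem tile {k : ℕ} (hk : 0 < k) {v ε g : Fin k → ℝ} {u T : ℝ} (hT : 0 < T)
    (hε : ∀ i, 0 ≤ ε i)
    (hf : ∀ i, ∃ f : ℝ → ℝ, (∀ s t, |f s - f t| ≤ v i * |s - t|) ∧ Sweeps f u (g i) T)
    (hsum : 1 ≤ ∑ i, (2 * ε i + g i * T)) :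
    ∃ a, IsTraversal v a ∧ idle ε a ≤ ENNReal.ofReal T := by
  choose f hf1 hf2 using hf
  -- partial sums
  set c : ℕ → ℝ := fun j => if h : j < k then 2 * ε ⟨j, h⟩ + g ⟨j, h⟩ * T else 0 with hc
  set P : ℕ → ℝ := fun j => ∑ i ∈ Finset.range j, c i with hP
  have hPk : 1 ≤ P k := by
    rw [hP]
    simp only
    rw [Finset.sum_range]
    have : ∑ i : Fin k, c i = ∑ i, (2 * ε i + g i * T) := by
      apply Finset.sum_congr rfl
      intro i _
      rw [hc]
      simp
    rw [this]
    exact hsum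
  refine ⟨coeAlg fun i t => f i t + (P i + ε i), isTraversal_coeAlg ?_, idle_coeAlg_le hT ?_⟩
  · intro i s t
    have := hf1 i s t
    rw [show f i s + (P i + ε i) - (f i t + (P i + ε i)) = f i s - f i t by ring]
    exact this
  · intro K _
    refine ⟨u * K, ?_⟩
    intro y hy1 hy2
    obtain ⟨i, hi, hi1, hi2⟩ := exists_between_seq P k hk (y := y - u * K)
      (by rw [hP]; simp only [Finset.range_zero, Finset.sum_empty]; linarith) (by linarith)
    have hstep : P (i + 1) = P i + (2 * ε ⟨i, hi⟩ + g ⟨i, hi⟩ * T) := by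
      rw [hP]
      simp only
      rw [Finset.sum_range_succ, hc]
      simp [hi]
    obtain ⟨⟨t1, ht1, hl⟩, ⟨t2, ht2, hh⟩⟩ := hf2 ⟨i, hi⟩ K
    refine ⟨⟨i, hi⟩, ?_⟩
    apply near_of_range (f := fun t => f ⟨i, hi⟩ t + (P i + ε ⟨i, hi⟩)) _ ht1 ht2 (hε _)
    · linarith
    · linarith
    · exact (lip_cont (hf1 ⟨i, hi⟩)).add continuous_const

end CP
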