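import Pool.Agent.Helper59.CP.Draw

/-!
The one-dimensional theorem for one fast path `A` and two barrier functions `S`, `R`
(a chain of slow agents).
-/

open Set

namespace CP

/-- The generalised system: `A` is `v`-Lipschitz, `R r - S s ≤ w |r - s|`, in every window
`[K, K+T]` the maximum of `A` is at least the minimum of `S`, and the maximum of `R` is at least
the minimum of `A` plus `L`. -/
structure Sys2 (A S R : ℝ → ℝ) (v w T L : ℝ) : Prop where
  hA : ∀ s t, |A s - A t| ≤ v * |s - t|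
  hS : Continuous S
  hR : Continuous R
  hSR : ∀ r s, R r - S s ≤ w * |r - s|
  h1 : ∀ K, 0 ≤ K → ∀ c, (∀ t ∈ Icc K (K + T), A t ≤ c) → ∃ s ∈ Icc K (K + T), S s ≤ c
  h2 : ∀ K, 0 ≤ K → ∀ c, (∀ t ∈ Icc K (K + T), c ≤ A t) → ∃ r ∈ Icc K (K + T), c + L ≤ R r

theorem Sys2.reflect {A S R : ℝ → ℝ} {v w T L : ℝ} (h : Sys2 A S R v w T L) :
    Sys2 (fun t => - A t) (fun t => L - R t) (fun t => L - S t) v w T L where
  hA := by
    intro s t
    have := h.hA s t
    rw [← abs_neg] at this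
    convert this using 2
    ring
  hS := continuous_const.sub h.hR
  hR := continuous_const.sub h.hS
  hSR := by
    intro r s
    have := h.hSR s r
    rw [abs_sub_comm] at this
    linarith
  h1 := by
    intro K hK c hc
    obtain ⟨r, hr, hr2⟩ := h.h2 K hK (-c) (fun t ht => by have := hc t ht; linarith)
    exact ⟨r, hr, by linarith⟩
  h2 := by
    intro K hK c hc
    obtain ⟨r, hr, hr2⟩ := h.h1 K hK (-c) (fun t ht => by have := hc t ht; linarith)
    exact ⟨r, hr, by linarith⟩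

/-- Step 1, forward version: no high-low-high pattern. -/
theorem step1_fwd2 {A S R : ℝ → ℝ} {v w T L : ℝ} (hv : 0 < v) (hw : 0 < w) (hT : 0 < T)
    (hA : ∀ s t, |A s - A t| ≤ v * |s - t|) (hRc : Continuous R) (hSR : ∀ r s, R r - S s ≤ w * |r - s|)
    (hL : max (2 * w * T) ((v + w) * T / 2) < L) (K0 : ℝ)
    (H2 : ∀ K, K0 ≤ K → K ≤ K0 + T / 2 → ∀ c, (∀ t ∈ Icc K (K + T), c ≤ A t) →
      ∃ r ∈ Icc K (K + T), c + L ≤ R r)
    {p1 l p3 s r M m : ℝ} (hp1 : K0 ≤ p1) (h1 : p1 ≤ l) (h3 : l ≤ p3) (hp3 : p3 ≤ K0 + T)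
    (hM1 : A p1 = M) (hM3 : A p3 = M) (hm : A l = m) (hmin : ∀ t ∈ Icc K0 (K0 + T), m ≤ A t)
    (hs : s ∈ Icc K0 (K0 + T)) (hBs : S s ≤ M) (hr : K0 ≤ r) (hrs : r ≤ s) (hBr : m + L ≤ R r) :
    False := by
  -- f
  set f : ℝ := M - m with hf
  have hf0 : 0 ≤ f := by
    have := hmin p1 ⟨hp1, by linarith⟩
    linarith
  have hf1 : f ≤ v * (l - p1) := by
    have := hA p1 l
    rw [hM1, hm, abs_of_nonneg hf0, abs_sub_comm, abs_of_nonneg (by linarith)] at this
    exact this
  have hf3 : f ≤ v * (p3 - l) := by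
    have := hA p3 l
    rw [hM3, hm, abs_of_nonneg hf0, abs_of_nonneg (by linarith)] at this
    exact this
  have hfT : 2 * f ≤ v * T := by
    have : v * (p3 - p1) ≤ v * T := mul_le_mul_of_nonneg_left (by linarith) hv.le
    nlinarith
  have hLmax1 : 2 * w * T < L := lt_of_le_of_lt (le_max_left _ _) hL
  have hLmax2 : (v + w) * T / 2 < L := lt_of_le_of_lt (le_max_right _ _) hL
  have hLf : w * T / 2 < L - f := by nlinarith
  -- the last high time of B before s
  have hcpt : IsCompact (Icc K0 s ∩ {t | m + L ≤ R t}) :=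
    isCompact_Icc.inter_right (isClosed_le continuous_const hRc)
  obtain ⟨Q, hR, hRmax⟩ := hcpt.exists_isGreatest ⟨r, ⟨hr, hrs⟩, hBr⟩
  have hR1 : K0 ≤ Q := hR.1.1
  have hR2 : Q ≤ s := hR.1.2
  have hR3 : m + L ≤ R Q := hR.2
  have hRs : L - f ≤ w * (s - Q) := by
    have h := hSR Q s
    have h' : |Q - s| = s - Q := by rw [abs_sub_comm, abs_of_nonneg (by linarith)]
    rw [h'] at h
    linarith
  have hgap : ∀ t, Q < t → w * (t - s) < L - f → R t < m + L := by
    intro t ht1 ht2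
    by_contra hcon
    push Not at hcon
    rcases le_or_gt t s with h | h
    · have := hRmax ⟨⟨by linarith, h⟩, hcon⟩
      linarith
    · have h4 := hSR t s
      rw [abs_of_pos (by linarith : (0:ℝ) < t - s)] at h4
      linarith
  -- Q < K0 + T/2
  have hRK : Q < K0 + T / 2 := by
    by_contra hcon
    push Not at hcon
    have : w * (s - Q) ≤ w * (T / 2) := mul_le_mul_of_nonneg_left (by linarith [hs.2]) hw.le
    linarith
  -- main estimate
  have key : ∀ δ, 0 < δ → Q + δ ≤ K0 + T / 2 → w * (Q + δ + T - s) < L - f →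
      f ≤ v * (Q + δ + T - p3) := by
    intro δ hδ hδ1 hδ2
    by_contra hcon
    push Not at hcon
    have hlow : ∀ t ∈ Icc (Q + δ) (Q + δ + T), m ≤ A t := by
      intro t ht
      rcases le_or_gt t (K0 + T) with h | h
      · exact hmin t ⟨by linarith [ht.1], h⟩
      · have h4 := hA p3 t
        rw [abs_sub_comm p3 t, abs_of_pos (by linarith : (0:ℝ) < t - p3), hM3] at h4
        have h5 := le_abs_self (M - A t)
        have h6 : v * (t - p3) ≤ v * (Q + δ + T - p3) :=
          mul_le_mul_of_nonneg_left (by linarith [ht.2]) hv.le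
        linarith
    obtain ⟨r', hr', hBr'⟩ := H2 (Q + δ) (by linarith) hδ1 m hlow
    have h7 := hgap r' (by linarith [hr'.1]) (by
      have : w * (r' - s) ≤ w * (Q + δ + T - s) := mul_le_mul_of_nonneg_left (by linarith [hr'.2]) hw.le
      linarith)
    linarith
  have key2 : f ≤ v * (Q + T - p3) := by
    have hroom : w * (Q + T - s) < L - f := by
      have : w * (Q + T - s) = w * T - w * (s - Q) := by ring
      rw [this]
      linarith
    -- choose small δ
    apply le_of_forall_pos_le_add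
    intro η hη
    set δ := min (min (K0 + T / 2 - Q) (η / v)) ((L - f - w * (Q + T - s)) / (2 * w)) with hδ
    have hδpos : 0 < δ := by
      apply lt_min (lt_min (by linarith) (div_pos hη hv))
      apply div_pos (by linarith) (by linarith)
    have hδa : δ ≤ K0 + T / 2 - Q := (min_le_left _ _).trans (min_le_left _ _)
    have hδb : δ ≤ η / v := (min_le_left _ _).trans (min_le_right _ _)
    have hδc : δ ≤ (L - f - w * (Q + T - s)) / (2 * w) := min_le_right _ _
    have hδc' : w * δ < L - f - w * (Q + T - s) := by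
      have : w * δ ≤ w * ((L - f - w * (Q + T - s)) / (2 * w)) := mul_le_mul_of_nonneg_left hδc hw.le
      have h2 : w * ((L - f - w * (Q + T - s)) / (2 * w)) = (L - f - w * (Q + T - s)) / 2 := by
        field_simp
      linarith
    have h8 := key δ hδpos (by linarith) (by nlinarith)
    have h9 : v * δ ≤ η := by
      have : v * δ ≤ v * (η / v) := mul_le_mul_of_nonneg_left hδb hv.le
      have h2 : v * (η / v) = η := by field_simp
      linarith
    nlinarith
  -- conclusion
  have hx : v * (f / v) = f := by field_simp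
  have hle : f / v ≤ Q + T - p3 := by
    rw [div_le_iff₀ hv]
    linarith
  have hle1 : f / v ≤ l - p1 := by
    rw [div_le_iff₀ hv]
    linarith
  have hle3 : f / v ≤ p3 - l := by
    rw [div_le_iff₀ hv]
    linarith
  have hfin : L ≤ f + w * (2 * T - 3 * (f / v)) := by
    have : w * (s - Q) ≤ w * (2 * T - 3 * (f / v)) := by
      apply mul_le_mul_of_nonneg_left _ hw.le
      linarith [hs.2]
    linarith
  have := arith' hv hw hf0 hfT hfin
  linarith

/-- Step 1: no high-low-high pattern in a window `[K0, K0+T]`, `K0 ≥ T/2`. -/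
theorem Sys2.no_HLH {A S R : ℝ → ℝ} {v w T L : ℝ} (Z : Sys2 A S R v w T L) (hv : 0 < v) (hw : 0 < w)
    (hT : 0 < T) (hL : max (2 * w * T) ((v + w) * T / 2) < L) {K0 p1 l p3 : ℝ} (hK0 : T / 2 ≤ K0)
    (hp1 : K0 ≤ p1) (h1 : p1 ≤ l) (h3 : l ≤ p3) (hp3 : p3 ≤ K0 + T)
    (hM1 : ∀ t ∈ Icc K0 (K0 + T), A t ≤ A p1) (hM3 : ∀ t ∈ Icc K0 (K0 + T), A t ≤ A p3)
    (hm : ∀ t ∈ Icc K0 (K0 + T), A l ≤ A t) : False := by
  have e13 : A p3 = A p1 := le_antisymm (hM1 p3 ⟨by linarith, hp3⟩) (hM3 p1 ⟨hp1, by linarith⟩)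
  obtain ⟨s, hs, hBs⟩ := Z.h1 K0 (by linarith) (A p1) hM1
  obtain ⟨r, hr, hBr⟩ := Z.h2 K0 (by linarith) (A l) hm
  rcases le_total r s with hrs | hrs
  · exact step1_fwd2 hv hw hT Z.hA Z.hR Z.hSR hL K0 (fun K hK _ => Z.h2 K (by linarith)) hp1 h1 h3 hp3
      rfl e13 rfl hm hs hBs hr.1 hrs hBr
  · -- time reversal t ↦ 2 K0 + T - t
    refine step1_fwd2 (A := fun t => A (2 * K0 + T - t)) (S := fun t => S (2 * K0 + T - t))
      (R := fun t => R (2 * K0 + T - t))
      hv hw hT ?_ (Z.hR.comp (by fun_prop)) ?_ hL K0 ?_ (p1 := 2 * K0 + T - p3) (l := 2 * K0 + T - l)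
      (p3 := 2 * K0 + T - p1) (s := 2 * K0 + T - s) (r := 2 * K0 + T - r) (M := A p1) (m := A l)
      (by linarith) (by linarith) (by linarith) (by linarith) ?_ ?_ ?_ ?_
      ⟨by linarith [hs.2], by linarith [hs.1]⟩ ?_ (by linarith [hr.2]) (by linarith) ?_
    · intro x y
      have := Z.hA (2 * K0 + T - x) (2 * K0 + T - y)
      rw [show 2 * K0 + T - x - (2 * K0 + T - y) = -(x - y) by ring, abs_neg] at this
      exact this
    · intro x y
      have := Z.hSR (2 * K0 + T - x) (2 * K0 + T - y)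
      rw [show 2 * K0 + T - x - (2 * K0 + T - y) = -(x - y) by ring, abs_neg] at this
      exact this
    · intro K hK1 hK2 c hc
      obtain ⟨r', hr', hBr'⟩ := Z.h2 (2 * K0 - K) (by linarith) c (by
        intro t ht
        have := hc (2 * K0 + T - t) ⟨by linarith [ht.2], by linarith [ht.1]⟩
        simpa using this)
      refine ⟨2 * K0 + T - r', ⟨by linarith [hr'.2], by linarith [hr'.1]⟩, ?_⟩
      simpa using hBr'
    · simpa using e13
    · simp
    · simp
    · intro t ht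
      exact hm _ ⟨by linarith [ht.2], by linarith [ht.1]⟩
    · simpa using hBs
    · simpa using hBr

/-- Step 1, reflected: no low-high-low pattern. -/
theorem Sys2.no_LHL {A S R : ℝ → ℝ} {v w T L : ℝ} (Z : Sys2 A S R v w T L) (hv : 0 < v) (hw : 0 < w)
    (hT : 0 < T) (hL : max (2 * w * T) ((v + w) * T / 2) < L) {K0 p1 l p3 : ℝ} (hK0 : T / 2 ≤ K0)
    (hp1 : K0 ≤ p1) (h1 : p1 ≤ l) (h3 : l ≤ p3) (hp3 : p3 ≤ K0 + T)
    (hM1 : ∀ t ∈ Icc K0 (K0 + T), A p1 ≤ A t) (hM3 : ∀ t ∈ Icc K0 (K0 + T), A p3 ≤ A t)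
    (hm : ∀ t ∈ Icc K0 (K0 + T), A t ≤ A l) : False :=
  Z.reflect.no_HLH hv hw hT hL hK0 hp1 h1 h3 hp3 (fun t ht => by simpa using hM1 t ht)
    (fun t ht => by simpa using hM3 t ht) (fun t ht => by simpa using hm t ht)

theorem Sys2.rise_ne_drop {A S R : ℝ → ℝ} {v w T L : ℝ} (Z : Sys2 A S R v w T L) (hv : 0 < v)
    (hw : 0 < w) (hT : 0 < T) (hL : max (2 * w * T) ((v + w) * T / 2) < L) {K : ℝ}
    (hK : T / 2 ≤ K) : rise A T K ≠ rise (fun x => - A x) T K := by
  intro heq
  have hA : Continuous A := lip_cont Z.hA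
  obtain ⟨s, t, h1, h2, h3, h4⟩ := rise_attained hA hT.le K
  obtain ⟨s', t', h1', h2', h3', h4'⟩ := rise_attained (A := fun x => - A x) hA.neg hT.le K
  -- all differences are at most the rise
  have hall : ∀ x ∈ Icc K (K + T), ∀ y ∈ Icc K (K + T), A y - A x ≤ rise A T K := by
    intro x hx y hy
    rcases le_total x y with h | h
    · exact le_rise hA hx.1 h hy.2
    · rw [heq]
      exact le_drop hA hy.1 h hx.2
  have hs : s ∈ Icc K (K + T) := ⟨h1, by linarith⟩
  have ht : t ∈ Icc K (K + T) := ⟨by linarith, h3⟩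
  have hs' : s' ∈ Icc K (K + T) := ⟨h1', by linarith⟩
  have ht' : t' ∈ Icc K (K + T) := ⟨by linarith, h3'⟩
  have hsmin : ∀ x ∈ Icc K (K + T), A s ≤ A x := fun x hx => by
    have := hall x hx t ht
    linarith
  have htmax : ∀ x ∈ Icc K (K + T), A x ≤ A t := fun x hx => by
    have := hall s hs x hx
    linarith
  have hsmax' : ∀ x ∈ Icc K (K + T), A x ≤ A s' := fun x hx => by
    have := hall t' ht' x hx
    linarith
  have htmin' : ∀ x ∈ Icc K (K + T), A t' ≤ A x := fun x hx => by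
    have := hall x hx s' hs'
    linarith
  -- s low, t high, s' high, t' low
  rcases le_total t s' with h | h
  · exact Z.no_LHL hv hw hT hL hK h1 h2 (by linarith : t ≤ t') h3' hsmin htmin' htmax
  · rcases le_total s s' with h5 | h5
    · exact Z.no_LHL hv hw hT hL hK h1 h5 h2' h3' hsmin htmin' hsmax'
    · exact Z.no_HLH hv hw hT hL hK h1' h5 h2 h3 hsmax' htmax hsmin

/-- Step 2. -/
theorem Sys2.dichotomy {A S R : ℝ → ℝ} {v w T L : ℝ} (Z : Sys2 A S R v w T L) (hv : 0 < v)
    (hw : 0 < w) (hT : 0 < T) (hL : max (2 * w * T) ((v + w) * T / 2) < L) :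
    NoHL A T ∨ NoHL (fun x => - A x) T := by
  have hA : Continuous A := lip_cont Z.hA
  have c1 := continuous_rise hA T
  have c2 := continuous_rise (A := fun x => - A x) hA.neg T
  by_cases h : ∀ K, T / 2 ≤ K → rise (fun x => - A x) T K < rise A T K
  · exact Or.inl (noHL_of_lt hA hT.le h)
  · right
    apply noHL_of_lt (A := fun x => - A x) hA.neg hT.le
    simp only [neg_neg]
    push Not at h
    obtain ⟨K1, hK1, hK1'⟩ := h
    intro K hK
    by_contra hcon
    push Not at hcon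
    -- intermediate value theorem
    have hpre : IsPreconnected (Ici (T / 2)) := isPreconnected_Ici
    obtain ⟨K2, hK2, hK2'⟩ := hpre.intermediate_value₂ hK1 hK c1.continuousOn c2.continuousOn
      hK1' hcon
    exact Z.rise_ne_drop hv hw hT hL hK2 hK2'

/-- Step 3. -/
theorem Sys2.step3 {A S R : ℝ → ℝ} {v w T L : ℝ} (Z : Sys2 A S R v w T L) (hv : 0 < v) (hw : 0 < w)
    (hT : 0 < T) (hL : max (2 * w * T) ((v + w) * T / 2) < L) (hNo : NoHL A T) : False := by
  have hAc : Continuous A := lip_cont Z.hA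
  set η : ℝ := (L - max (2 * w * T) ((v + w) * T / 2)) / 8 with hη
  have hηpos : 0 < η := by
    rw [hη]
    apply div_pos _ (by norm_num)
    linarith
  obtain ⟨P0, hP0, hF⟩ := slow hv hT Z.hA hηpos
  -- near maximal drawdown
  obtain ⟨x, ⟨p0, l0, hp0, hpl0, hl0, rfl⟩, hx⟩ :=
    exists_lt_of_lt_csSup ⟨0, DD_nonempty A hT.le (P0 + T)⟩
      (show F A T (P0 + T) - η < sSup (DD A T (P0 + T)) by
        change F A T (P0 + T) - η < F A T (P0 + T)
        linarith)
  have hnear : F A T P0 - 2 * η ≤ A p0 - A l0 := by linarith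
  -- argmax on [p0, l0]
  obtain ⟨p, hp, hpmax⟩ := isCompact_Icc.exists_isMaxOn ⟨p0, left_mem_Icc.mpr hpl0⟩
    (hAc.continuousOn (s := Icc p0 l0))
  have hpmax' : ∀ t ∈ Icc p0 l0, A t ≤ A p := fun t ht => hpmax ht
  have hpp0 := hpmax' p0 (left_mem_Icc.mpr hpl0)
  have hpT : T / 2 ≤ p := by linarith [hp.1]
  -- some higher value in [p, p+T]
  have hex : ∃ t ∈ Icc p (p + T), A p < A t := by
    by_contra hcon
    push Not at hcon
    obtain ⟨l, hl, hlmin⟩ := isCompact_Icc.exists_isMinOn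
      (⟨p, left_mem_Icc.mpr (by linarith)⟩ : (Icc p (p + T)).Nonempty)
      (hAc.continuousOn (s := Icc p (p + T)))
    exact hNo p hpT p l le_rfl hl.1 hl.2 hcon (fun t ht => hlmin ht)
  obtain ⟨t1, ht1, hAt1⟩ := hex
  have hl0t1 : l0 < t1 := by
    by_contra hcon
    push Not at hcon
    have := hpmax' t1 ⟨by linarith [hp.1, ht1.1], hcon⟩
    linarith
  -- first return p'
  have hl0p : A l0 ≤ A p := hpmax' l0 (right_mem_Icc.mpr hpl0)
  have hcpt : IsCompact (Icc l0 t1 ∩ {t | A p ≤ A t}) :=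
    isCompact_Icc.inter_right (isClosed_le continuous_const hAc)
  obtain ⟨p', hp', hp'min⟩ := hcpt.exists_isLeast ⟨t1, ⟨hl0t1.le, le_rfl⟩, hAt1.le⟩
  have hp'1 : l0 ≤ p' := hp'.1.1
  have hp'2 : p' ≤ t1 := hp'.1.2
  have hp'3 : A p ≤ A p' := hp'.2
  have hbelow : ∀ t ∈ Ico l0 p', A t < A p := by
    intro t ht
    by_contra hcon
    push Not at hcon
    have := hp'min ⟨⟨ht.1, by linarith [ht.2]⟩, hcon⟩
    linarith [ht.2]
  have hp'eq : A p' = A p := by
    apply le_antisymm _ hp'3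
    by_contra hcon
    push Not at hcon
    obtain ⟨u, hu, hAu⟩ := intermediate_value_Icc hp'1 hAc.continuousOn ⟨hl0p, hcon.le⟩
    have h1 := hp'min ⟨⟨hu.1, by linarith [hu.2]⟩, hAu.ge⟩
    have h2 : u = p' := le_antisymm hu.2 h1
    rw [h2] at hAu
    linarith
  have hpp' : p ≤ p' := by linarith [hp.2]
  have hp'T : p' ≤ p + T := by linarith [ht1.2]
  have hupper : ∀ t ∈ Icc p p', A t ≤ A p := by
    intro t ht
    rcases le_total t l0 with h | h
    · exact hpmax' t ⟨by linarith [hp.1, ht.1], h⟩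
    · rcases lt_or_eq_of_le ht.2 with h' | h'
      · exact (hbelow t ⟨h, h'⟩).le
      · rw [h', hp'eq]
  -- argmin on [p, p']
  obtain ⟨l, hl, hlmin⟩ := isCompact_Icc.exists_isMinOn ⟨p, left_mem_Icc.mpr hpp'⟩
    (hAc.continuousOn (s := Icc p p'))
  have hlmin' : ∀ t ∈ Icc p p', A l ≤ A t := fun t ht => hlmin ht
  set f : ℝ := A p - A l with hf
  have hf0 : 0 ≤ f := by
    have := hupper l hl
    linarith
  have hfnear : F A T P0 - 2 * η ≤ f := by
    have := hlmin' l0 ⟨hp.2, hp'1⟩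
    linarith
  -- K1
  set K1 : ℝ := p' - T with hK1
  have hK1p : K1 ≤ p := by linarith
  have hK1P0 : P0 ≤ K1 := by linarith
  have hK1T : K1 + T = p' := by rw [hK1]; ring
  -- K'
  have hex2 : ∃ u ∈ Icc K1 p, A u ≤ A l := by
    by_contra hcon
    push Not at hcon
    obtain ⟨q, hq, hqmax⟩ := isCompact_Icc.exists_isMaxOn ⟨p, right_mem_Icc.mpr hK1p⟩
      (hAc.continuousOn (s := Icc K1 p))
    have hqmax' : ∀ t ∈ Icc K1 p, A t ≤ A q := fun t ht => hqmax ht
    apply hNo K1 (by linarith) q l hq.1 (by linarith [hq.2, hl.1]) (by linarith [hl.2])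
    · intro t ht
      rw [hK1T] at ht
      rcases le_total t p with h | h
      · exact hqmax' t ⟨ht.1, h⟩
      · exact (hupper t ⟨h, ht.2⟩).trans (hqmax' p (right_mem_Icc.mpr hK1p))
    · intro t ht
      rw [hK1T] at ht
      rcases le_total t p with h | h
      · exact (hcon t ⟨ht.1, h⟩).le
      · exact hlmin' t ⟨h, ht.2⟩
  obtain ⟨u0, hu0, hAu0⟩ := hex2
  have hcpt2 : IsCompact (Icc K1 p ∩ {t | A t ≤ A l}) :=
    isCompact_Icc.inter_right (isClosed_le hAc continuous_const)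
  obtain ⟨K', hK', hK'max⟩ := hcpt2.exists_isGreatest ⟨u0, hu0, hAu0⟩
  have hK'1 : K1 ≤ K' := hK'.1.1
  have hK'2 : K' ≤ p := hK'.1.2
  have hK'3 : A K' ≤ A l := hK'.2
  have habove : ∀ t ∈ Ioc K' p, A l < A t := by
    intro t ht
    by_contra hcon
    push Not at hcon
    have := hK'max ⟨⟨by linarith [ht.1], ht.2⟩, hcon⟩
    linarith [ht.1]
  have hlp : A l ≤ A p := hupper l hl
  have hK'eq : A K' = A l := by
    apply le_antisymm hK'3
    by_contra hcon
    push Not at hcon
    obtain ⟨u, hu, hAu⟩ := intermediate_value_Icc hK'2 hAc.continuousOn ⟨hcon.le, hlp⟩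
    have h1 := hK'max ⟨⟨by linarith [hu.1], hu.2⟩, hAu.le⟩
    have h2 : u = K' := le_antisymm h1 hu.1
    rw [h2] at hAu
    linarith
  -- the low bound on [K', K'+T]
  have hlow : ∀ t ∈ Icc K' (K' + T), A l - 2 * η ≤ A t := by
    intro t ht
    rcases le_total t p' with h | h
    · have : A l ≤ A t := by
        rcases le_total t p with h' | h'
        · rcases lt_or_eq_of_le ht.1 with h'' | h''
          · exact (habove t ⟨h'', h'⟩).le
          · rw [← h'', hK'eq]
        · exact hlmin' t ⟨h', h⟩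
      linarith
    · have h3 := le_F hv Z.hA (P := P0) (by linarith : P0 ≤ p') h
        (by linarith [ht.2] : t ≤ p' + T)
      linarith
  -- the upper bound on [K1, K1+T]
  have hup : ∀ t ∈ Icc K1 (K1 + T), A t ≤ A p + 2 * η := by
    intro t ht
    rw [hK1T] at ht
    rcases le_total t p with h | h
    · have h3 := le_F hv Z.hA (P := P0) (by linarith [ht.1] : P0 ≤ t)
        (by linarith [hl.1] : t ≤ l) (by linarith [hl.2, ht.1] : l ≤ t + T)
      linarith
    · have := hupper t ⟨h, ht.2⟩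
      linarith
  obtain ⟨s, hs, hBs⟩ := Z.h1 K1 (by linarith) _ hup
  obtain ⟨r, hr, hBr⟩ := Z.h2 K' (by linarith) _ hlow
  have hdist : |r - s| ≤ K' + T - K1 := by
    rw [abs_le]
    constructor
    · linarith [hr.1, hs.2]
    · linarith [hr.2, hs.1]
  have hB := Z.hSR r s
  have hB3 : w * |r - s| ≤ w * (K' + T - K1) := mul_le_mul_of_nonneg_left hdist hw.le
  have hmain : L ≤ f + 4 * η + w * (K' + T - K1) := by linarith
  -- distances
  have d1 : f ≤ v * (p - K') := by
    have h1 := Z.hA p K'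
    rw [abs_of_nonneg (by linarith : (0:ℝ) ≤ p - K')] at h1
    have h2 := le_abs_self (A p - A K')
    linarith
  have d2 : f ≤ v * (l - p) := by
    have h1 := Z.hA p l
    rw [abs_sub_comm p l, abs_of_nonneg (by linarith [hl.1] : (0:ℝ) ≤ l - p)] at h1
    have h2 := le_abs_self (A p - A l)
    linarith
  have d3 : f ≤ v * (p' - l) := by
    have h1 := Z.hA p' l
    rw [abs_of_nonneg (by linarith [hl.2] : (0:ℝ) ≤ p' - l)] at h1
    have h2 := le_abs_self (A p' - A l)
    linarith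
  have e1 : f / v ≤ p - K' := by rw [div_le_iff₀ hv]; linarith
  have e2 : f / v ≤ l - p := by rw [div_le_iff₀ hv]; linarith
  have e3 : f / v ≤ p' - l := by rw [div_le_iff₀ hv]; linarith
  have hfT : 2 * f ≤ v * T := by
    have : v * (p' - p) ≤ v * T := mul_le_mul_of_nonneg_left (by linarith) hv.le
    nlinarith
  have hfin : L - 4 * η ≤ f + w * (2 * T - 3 * (f / v)) := by
    have : w * (K' + T - K1) ≤ w * (2 * T - 3 * (f / v)) :=
      mul_le_mul_of_nonneg_left (by linarith) hw.le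
    linarith
  have := arith' hv hw hf0 hfT hfin
  linarith

/-- The one-dimensional theorem. -/
theorem Sys2.main {A S R : ℝ → ℝ} {v w T L : ℝ} (Z : Sys2 A S R v w T L) (hv : 0 < v) (hw : 0 < w)
    (hT : 0 < T) : L ≤ max (2 * w * T) ((v + w) * T / 2) := by
  by_contra hcon
  push Not at hcon
  rcases Z.dichotomy hv hw hT hcon with h | h
  · exact Z.step3 hv hw hT hcon h
  · exact Z.reflect.step3 hv hw hT hcon h

end CP
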