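import Pool.Agent.Helper59.CP.Defs
import Pool.Agent.Helper59.CP.Cover

/-!
Lipschitz lifts to the real line of the paths of the agents.
-/

open Set

namespace CP

/-- A locally Lipschitz path in the circle has a globally Lipschitz lift. -/
theorem exists_lift {v : ℝ} (hv : 0 < v) {a : ℝ → UnitAddCircle} (hc : ContinuousOn a (Ici 0))
    (hl : ∀ t s : ℝ, 0 ≤ t → 0 < s → v * s < 1 / 2 → dist (a t) (a (t + s)) ≤ v * s) :
    ∃ A : ℝ → ℝ, (∀ t, 0 ≤ t → (A t : UnitAddCircle) = a t) ∧
      ∀ s t, |A s - A t| ≤ v * |s - t| := by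
  -- extended path
  have hc' : Continuous fun t : ℝ => a (max t 0) := by
    apply hc.comp_continuous (by fun_prop)
    intro t
    exact le_max_right t 0
  obtain ⟨y0, hy0⟩ : ∃ y0 : ℝ, (y0 : UnitAddCircle) = a (max 0 0) :=
    QuotientAddGroup.mk_surjective _
  obtain ⟨F, ⟨-, hFl⟩, -⟩ := (AddCircle.isCoveringMap_coe (1 : ℝ)).existsUnique_continuousMap_lifts
    (⟨_, hc'⟩ : C(ℝ, AddCircle (1 : ℝ))) 0 y0 hy0
  have hF : ∀ x : ℝ, (F x : UnitAddCircle) = a (max x 0) := fun x => congrFun hFl x
  refine ⟨F, fun t ht => by rw [hF, max_eq_left ht], ?_⟩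
  -- circle distance
  have hdist : ∀ x y : ℝ, x ≤ y → v * (y - x) < 1 / 2 →
      dist (F x : UnitAddCircle) (F y : UnitAddCircle) ≤ v * (y - x) := by
    intro x y hxy hv2
    rw [hF, hF]
    have hmax : max y 0 - max x 0 ≤ y - x := by
      rcases le_total x 0 with h | h
      · rcases le_total y 0 with h' | h'
        · rw [max_eq_right h, max_eq_right h']; linarith
        · rw [max_eq_right h, max_eq_left h']; linarith
      · rw [max_eq_left h, max_eq_left (h.trans hxy)]
    have hmono : max x 0 ≤ max y 0 := max_le_max hxy le_rfl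
    rcases hmono.eq_or_lt with h | h
    · rw [h, dist_self]
      apply mul_nonneg hv.le
      linarith
    · have h1 := hl (max x 0) (max y 0 - max x 0) (le_max_right _ _) (by linarith) (by nlinarith)
      rw [add_sub_cancel] at h1
      nlinarith
  -- local property
  have hloc : ∀ x : ℝ, ∃ δ > 0, ∀ y, x ≤ y → y < x + δ → |F y - F x| ≤ v * (y - x) := by
    intro x
    have hcont : ContinuousAt F x := F.continuous.continuousAt
    rw [Metric.continuousAt_iff] at hcont
    obtain ⟨δ1, hδ1, h1⟩ := hcont (1 / 2) (by norm_num)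
    refine ⟨min δ1 (1 / (2 * v)), lt_min hδ1 (by positivity), ?_⟩
    intro y hxy hy
    have hy1 : y < x + δ1 := lt_of_lt_of_le hy (by linarith [min_le_left δ1 (1 / (2 * v))])
    have hy2 : y < x + 1 / (2 * v) :=
      lt_of_lt_of_le hy (by linarith [min_le_right δ1 (1 / (2 * v))])
    have h2 : dist (F y) (F x) < 1 / 2 := h1 (by
      rw [Real.dist_eq, abs_of_nonneg (by linarith)]
      linarith)
    rw [Real.dist_eq] at h2
    have h3 : v * (y - x) < 1 / 2 := by
      have h4 : v * (y - x) < v * (1 / (2 * v)) := mul_lt_mul_of_pos_left (by linarith) hv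
      have h5 : v * (1 / (2 * v)) = 1 / 2 := by field_simp
      linarith
    have h4 := hdist x y hxy h3
    rw [dist_comm, dist_eq_norm, ← AddCircle.coe_sub,
      (AddCircle.norm_coe_eq_abs_iff (1 : ℝ) one_ne_zero).mpr (by rw [abs_one]; exact h2.le)] at h4
    exact h4
  -- global property
  have hglob : ∀ s t : ℝ, s ≤ t → |F t - F s| ≤ v * (t - s) := by
    intro s t hst
    have hclosed : IsClosed ({x | |F x - F s| ≤ v * (x - s)} ∩ Icc s t) := by
      apply IsClosed.inter _ isClosed_Icc
      apply isClosed_le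
      · fun_prop
      · fun_prop
    have hsub := hclosed.Icc_subset_of_forall_exists_gt (by simp) (by
      rintro x ⟨hx1, hx2⟩ y hy
      obtain ⟨δ, hδ, hδ2⟩ := hloc x
      simp only [mem_ofPred_eq] at hx1
      refine ⟨min y (x + δ / 2), ?_, lt_min hy (by linarith), min_le_left _ _⟩
      simp only [mem_ofPred_eq]
      set z := min y (x + δ / 2) with hz
      have hxz : x ≤ z := le_min (le_of_lt hy) (by linarith)
      have hzδ : z < x + δ := lt_of_le_of_lt (min_le_right _ _) (by linarith)
      have h1 := hδ2 z hxz hzδ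
      have h2 : F z - F s = (F z - F x) + (F x - F s) := by ring
      rw [h2]
      calc |F z - F x + (F x - F s)| ≤ |F z - F x| + |F x - F s| := abs_add_le _ _
        _ ≤ v * (z - x) + v * (x - s) := add_le_add h1 hx1
        _ = v * (z - s) := by ring)
    exact hsub (right_mem_Icc.mpr hst)
  intro s t
  rcases le_total s t with h | h
  · rw [abs_sub_comm (F s), abs_sub_comm s, abs_of_nonneg (by linarith : (0:ℝ) ≤ t - s)]
    exact hglob s t h
  · rw [abs_of_nonneg (by linarith : (0:ℝ) ≤ s - t)]
    exact hglob t s h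

/-- circle distance in terms of representatives -/
theorem exists_int_of_dist {x y e : ℝ} (h : dist (x : UnitAddCircle) (y : UnitAddCircle) ≤ e) :
    ∃ n : ℤ, |x - y - n| ≤ e := by
  rw [dist_eq_norm, ← AddCircle.coe_sub, UnitAddCircle.norm_eq] at h
  exact ⟨_, h⟩

theorem dist_coe_le (x y : ℝ) (n : ℤ) : dist (x : UnitAddCircle) (y : UnitAddCircle) ≤ |x - y - n| := by
  rw [dist_eq_norm, ← AddCircle.coe_sub, UnitAddCircle.norm_eq]
  exact round_le _ _

end CP
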