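import Mathlib

/-!
One-dimensional core of the two-agent patrolling bound.
-/

open Set

namespace CP

/-- The system of the lower bound: `A` is `v`-Lipschitz, `B` is `w`-Lipschitz and in every window
`[K, K+T]` the maximum of `A` is at least the minimum of `B`, and the maximum of `B` is at least
the minimum of `A` plus `L`. -/
structure Sys (A B : ℝ → ℝ) (v w T L : ℝ) : Prop where
  hA : ∀ s t, |A s - A t| ≤ v * |s - t|
  hB : ∀ s t, |B s - B t| ≤ w * |s - t|
  h1 : ∀ K, 0 ≤ K → ∀ c, (∀ t ∈ Icc K (K + T), A t ≤ c) → ∃ s ∈ Icc K (K + T), B s ≤ c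
  h2 : ∀ K, 0 ≤ K → ∀ c, (∀ t ∈ Icc K (K + T), c ≤ A t) → ∃ r ∈ Icc K (K + T), c + L ≤ B r

theorem lip_cont {A : ℝ → ℝ} {v : ℝ} (hA : ∀ s t, |A s - A t| ≤ v * |s - t|) : Continuous A := by
  have hv : 0 ≤ v := by
    have h := hA 0 1
    have h2 : (0 : ℝ) ≤ |A 0 - A 1| := abs_nonneg _
    have h3 : |(0 : ℝ) - 1| = 1 := by norm_num
    rw [h3] at h
    linarith
  have : LipschitzWith ⟨v, hv⟩ A := by
    apply LipschitzWith.of_dist_le_mul
    intro x y
    rw [Real.dist_eq, Real.dist_eq]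
    exact hA x y
  exact this.continuous

theorem Sys.reflect {A B : ℝ → ℝ} {v w T L : ℝ} (h : Sys A B v w T L) :
    Sys (fun t => - A t) (fun t => L - B t) v w T L where
  hA := by
    intro s t
    have := h.hA s t
    rw [← abs_neg] at this
    convert this using 2
    ring
  hB := by
    intro s t
    have := h.hB s t
    rw [← abs_neg] at this
    convert this using 2
    ring
  h1 := by
    intro K hK c hc
    obtain ⟨r, hr, hr2⟩ := h.h2 K hK (-c) (fun t ht => by have := hc t ht; linarith)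
    exact ⟨r, hr, by linarith⟩
  h2 := by
    intro K hK c hc
    obtain ⟨r, hr, hr2⟩ := h.h1 K hK (-c) (fun t ht => by have := hc t ht; linarith)
    exact ⟨r, hr, by linarith⟩

/-- the final computation -/
theorem arith {v w T L x f : ℝ} (hv : 0 < v) (hw : 0 < w) (hf : f ≤ v * x) (hx : 0 ≤ x)
    (hx2 : 2 * x ≤ T) (hL : L ≤ f + w * (2 * T - 3 * x)) : L ≤ max (2 * w * T) ((v + w) * T / 2) := by
  rcases le_total v (3 * w) with h | h
  · apply le_max_of_le_left
    nlinarith
  · apply le_max_of_le_right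
    nlinarith

theorem arith' {v w T L f : ℝ} (hv : 0 < v) (hw : 0 < w) (hf : 0 ≤ f)
    (hx2 : 2 * f ≤ v * T) (hL : L ≤ f + w * (2 * T - 3 * (f / v))) :
    L ≤ max (2 * w * T) ((v + w) * T / 2) := by
  have h1 : v * (f / v) = f := by field_simp
  apply arith (x := f / v) hv hw h1.ge (div_nonneg hf hv.le) _ hL
  rw [← not_lt]
  intro h3
  have : v * T < v * (2 * (f / v)) := mul_lt_mul_of_pos_left h3 hv
  nlinarith

/-- Step 1, forward version: no high-low-high pattern. -/
theorem step1_fwd {A B : ℝ → ℝ} {v w T L : ℝ} (hv : 0 < v) (hw : 0 < w) (hT : 0 < T)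
    (hA : ∀ s t, |A s - A t| ≤ v * |s - t|) (hB : ∀ s t, |B s - B t| ≤ w * |s - t|)
    (hL : max (2 * w * T) ((v + w) * T / 2) < L) (K0 : ℝ)
    (H2 : ∀ K, K0 ≤ K → K ≤ K0 + T / 2 → ∀ c, (∀ t ∈ Icc K (K + T), c ≤ A t) →
      ∃ r ∈ Icc K (K + T), c + L ≤ B r)
    {p1 l p3 s r M m : ℝ} (hp1 : K0 ≤ p1) (h1 : p1 ≤ l) (h3 : l ≤ p3) (hp3 : p3 ≤ K0 + T)
    (hM1 : A p1 = M) (hM3 : A p3 = M) (hm : A l = m) (hmin : ∀ t ∈ Icc K0 (K0 + T), m ≤ A t)
    (hs : s ∈ Icc K0 (K0 + T)) (hBs : B s ≤ M) (hr : K0 ≤ r) (hrs : r ≤ s) (hBr : m + L ≤ B r) :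
    False := by
  have hBc : Continuous B := lip_cont hB
  -- f
  set f : ℝ := M - m with hf
  have hf0 : 0 ≤ f := by
    have := hmin p1 ⟨hp1, by linarith⟩
    linarith
  have hf1 : f ≤ v * (l - p1) := by
    have := hA p1 l
    rw [hM1, hm, abs_of_nonneg hf0, abs_sub_comm, abs_of_nonneg (by linarith)] at this
    exact this
  have hf3 : f ≤ v * (p3 - l) := by
    have := hA p3 l
    rw [hM3, hm, abs_of_nonneg hf0, abs_of_nonneg (by linarith)] at this
    exact this
  have hfT : 2 * f ≤ v * T := by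
    have : v * (p3 - p1) ≤ v * T := mul_le_mul_of_nonneg_left (by linarith) hv.le
    nlinarith
  have hLmax1 : 2 * w * T < L := lt_of_le_of_lt (le_max_left _ _) hL
  have hLmax2 : (v + w) * T / 2 < L := lt_of_le_of_lt (le_max_right _ _) hL
  have hLf : w * T / 2 < L - f := by nlinarith
  -- the last high time of B before s
  have hcpt : IsCompact (Icc K0 s ∩ {t | m + L ≤ B t}) :=
    isCompact_Icc.inter_right (isClosed_le continuous_const hBc)
  obtain ⟨R, hR, hRmax⟩ := hcpt.exists_isGreatest ⟨r, ⟨hr, hrs⟩, hBr⟩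
  have hR1 : K0 ≤ R := hR.1.1
  have hR2 : R ≤ s := hR.1.2
  have hR3 : m + L ≤ B R := hR.2
  have hRs : L - f ≤ w * (s - R) := by
    have h := hB R s
    have h' : |R - s| = s - R := by rw [abs_sub_comm, abs_of_nonneg (by linarith)]
    rw [h'] at h
    have h'' := le_abs_self (B R - B s)
    linarith
  -- no high time in (R, s + (L - f)/w)
  have hgap : ∀ t, R < t → w * (t - s) < L - f → B t < m + L := by
    intro t ht1 ht2
    by_contra hcon
    push Not at hcon
    rcases le_or_gt t s with h | h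
    · have := hRmax ⟨⟨by linarith, h⟩, hcon⟩
      linarith
    · have h4 := hB t s
      rw [abs_of_pos (by linarith : (0:ℝ) < t - s)] at h4
      have h5 := le_abs_self (B t - B s)
      linarith
  -- R < K0 + T/2
  have hRK : R < K0 + T / 2 := by
    by_contra hcon
    push Not at hcon
    have : w * (s - R) ≤ w * (T / 2) := mul_le_mul_of_nonneg_left (by linarith [hs.2]) hw.le
    linarith
  -- main estimate
  have key : ∀ δ, 0 < δ → R + δ ≤ K0 + T / 2 → w * (R + δ + T - s) < L - f →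
      f ≤ v * (R + δ + T - p3) := by
    intro δ hδ hδ1 hδ2
    by_contra hcon
    push Not at hcon
    have hlow : ∀ t ∈ Icc (R + δ) (R + δ + T), m ≤ A t := by
      intro t ht
      rcases le_or_gt t (K0 + T) with h | h
      · exact hmin t ⟨by linarith [ht.1], h⟩
      · have h4 := hA p3 t
        rw [abs_sub_comm p3 t, abs_of_pos (by linarith : (0:ℝ) < t - p3), hM3] at h4
        have h5 := le_abs_self (M - A t)
        have h6 : v * (t - p3) ≤ v * (R + δ + T - p3) :=
          mul_le_mul_of_nonneg_left (by linarith [ht.2]) hv.le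
        linarith
    obtain ⟨r', hr', hBr'⟩ := H2 (R + δ) (by linarith) hδ1 m hlow
    have h7 := hgap r' (by linarith [hr'.1]) (by
      have : w * (r' - s) ≤ w * (R + δ + T - s) := mul_le_mul_of_nonneg_left (by linarith [hr'.2]) hw.le
      linarith)
    linarith
  have key2 : f ≤ v * (R + T - p3) := by
    have hroom : w * (R + T - s) < L - f := by
      have : w * (R + T - s) = w * T - w * (s - R) := by ring
      rw [this]
      linarith
    -- choose small δ
    apply le_of_forall_pos_le_add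
    intro η hη
    set δ := min (min (K0 + T / 2 - R) (η / v)) ((L - f - w * (R + T - s)) / (2 * w)) with hδ
    have hδpos : 0 < δ := by
      apply lt_min (lt_min (by linarith) (div_pos hη hv))
      apply div_pos (by linarith) (by linarith)
    have hδa : δ ≤ K0 + T / 2 - R := (min_le_left _ _).trans (min_le_left _ _)
    have hδb : δ ≤ η / v := (min_le_left _ _).trans (min_le_right _ _)
    have hδc : δ ≤ (L - f - w * (R + T - s)) / (2 * w) := min_le_right _ _
    have hδc' : w * δ < L - f - w * (R + T - s) := by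
      have : w * δ ≤ w * ((L - f - w * (R + T - s)) / (2 * w)) := mul_le_mul_of_nonneg_left hδc hw.le
      have h2 : w * ((L - f - w * (R + T - s)) / (2 * w)) = (L - f - w * (R + T - s)) / 2 := by
        field_simp
      linarith
    have h8 := key δ hδpos (by linarith) (by nlinarith)
    have h9 : v * δ ≤ η := by
      have : v * δ ≤ v * (η / v) := mul_le_mul_of_nonneg_left hδb hv.le
      have h2 : v * (η / v) = η := by field_simp
      linarith
    nlinarith
  -- conclusion
  have hx : v * (f / v) = f := by field_simp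
  have hle : f / v ≤ R + T - p3 := by
    rw [div_le_iff₀ hv]
    linarith
  have hle1 : f / v ≤ l - p1 := by
    rw [div_le_iff₀ hv]
    linarith
  have hle3 : f / v ≤ p3 - l := by
    rw [div_le_iff₀ hv]
    linarith
  have hfin : L ≤ f + w * (2 * T - 3 * (f / v)) := by
    have : w * (s - R) ≤ w * (2 * T - 3 * (f / v)) := by
      apply mul_le_mul_of_nonneg_left _ hw.le
      linarith [hs.2]
    linarith
  have := arith' hv hw hf0 hfT hfin
  linarith

/-- Step 1: no high-low-high pattern in a window `[K0, K0+T]`, `K0 ≥ T/2`. -/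
theorem Sys.no_HLH {A B : ℝ → ℝ} {v w T L : ℝ} (S : Sys A B v w T L) (hv : 0 < v) (hw : 0 < w)
    (hT : 0 < T) (hL : max (2 * w * T) ((v + w) * T / 2) < L) {K0 p1 l p3 : ℝ} (hK0 : T / 2 ≤ K0)
    (hp1 : K0 ≤ p1) (h1 : p1 ≤ l) (h3 : l ≤ p3) (hp3 : p3 ≤ K0 + T)
    (hM1 : ∀ t ∈ Icc K0 (K0 + T), A t ≤ A p1) (hM3 : ∀ t ∈ Icc K0 (K0 + T), A t ≤ A p3)
    (hm : ∀ t ∈ Icc K0 (K0 + T), A l ≤ A t) : False := by
  have e13 : A p3 = A p1 := le_antisymm (hM1 p3 ⟨by linarith, hp3⟩) (hM3 p1 ⟨hp1, by linarith⟩)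
  obtain ⟨s, hs, hBs⟩ := S.h1 K0 (by linarith) (A p1) hM1
  obtain ⟨r, hr, hBr⟩ := S.h2 K0 (by linarith) (A l) hm
  rcases le_total r s with hrs | hrs
  · exact step1_fwd hv hw hT S.hA S.hB hL K0 (fun K hK _ => S.h2 K (by linarith)) hp1 h1 h3 hp3
      rfl e13 rfl hm hs hBs hr.1 hrs hBr
  · -- time reversal t ↦ 2 K0 + T - t
    refine step1_fwd (A := fun t => A (2 * K0 + T - t)) (B := fun t => B (2 * K0 + T - t))
      hv hw hT ?_ ?_ hL K0 ?_ (p1 := 2 * K0 + T - p3) (l := 2 * K0 + T - l)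
      (p3 := 2 * K0 + T - p1) (s := 2 * K0 + T - s) (r := 2 * K0 + T - r) (M := A p1) (m := A l)
      (by linarith) (by linarith) (by linarith) (by linarith) ?_ ?_ ?_ ?_
      ⟨by linarith [hs.2], by linarith [hs.1]⟩ ?_ (by linarith [hr.2]) (by linarith) ?_
    · intro x y
      have := S.hA (2 * K0 + T - x) (2 * K0 + T - y)
      rw [show 2 * K0 + T - x - (2 * K0 + T - y) = -(x - y) by ring, abs_neg] at this
      exact this
    · intro x y
      have := S.hB (2 * K0 + T - x) (2 * K0 + T - y)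
      rw [show 2 * K0 + T - x - (2 * K0 + T - y) = -(x - y) by ring, abs_neg] at this
      exact this
    · intro K hK1 hK2 c hc
      obtain ⟨r', hr', hBr'⟩ := S.h2 (2 * K0 - K) (by linarith) c (by
        intro t ht
        have := hc (2 * K0 + T - t) ⟨by linarith [ht.2], by linarith [ht.1]⟩
        simpa using this)
      refine ⟨2 * K0 + T - r', ⟨by linarith [hr'.2], by linarith [hr'.1]⟩, ?_⟩
      simpa using hBr'
    · simpa using e13
    · simp
    · simp
    · intro t ht
      exact hm _ ⟨by linarith [ht.2], by linarith [ht.1]⟩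
    · simpa using hBs
    · simpa using hBr

/-- Step 1, reflected: no low-high-low pattern. -/
theorem Sys.no_LHL {A B : ℝ → ℝ} {v w T L : ℝ} (S : Sys A B v w T L) (hv : 0 < v) (hw : 0 < w)
    (hT : 0 < T) (hL : max (2 * w * T) ((v + w) * T / 2) < L) {K0 p1 l p3 : ℝ} (hK0 : T / 2 ≤ K0)
    (hp1 : K0 ≤ p1) (h1 : p1 ≤ l) (h3 : l ≤ p3) (hp3 : p3 ≤ K0 + T)
    (hM1 : ∀ t ∈ Icc K0 (K0 + T), A p1 ≤ A t) (hM3 : ∀ t ∈ Icc K0 (K0 + T), A p3 ≤ A t)
    (hm : ∀ t ∈ Icc K0 (K0 + T), A t ≤ A l) : False :=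
  S.reflect.no_HLH hv hw hT hL hK0 hp1 h1 h3 hp3 (fun t ht => by simpa using hM1 t ht)
    (fun t ht => by simpa using hM3 t ht) (fun t ht => by simpa using hm t ht)

end CP
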