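import Pool.Agent.Helper59.CP.Bound

/-!
Indispensable agents keep their cyclic order, and neighbouring visibility arcs overlap in every
window.
-/

open Set MeasureTheory

namespace CP

variable {n : ℕ} {A : Fin (n + 1) → ℝ → ℝ} {V ε : Fin (n + 1) → ℝ} {T : ℝ}

/-- Every point is seen in every window, on the real line. -/
def CovN (A : Fin (n + 1) → ℝ → ℝ) (ε : Fin (n + 1) → ℝ) (T : ℝ) : Prop :=
  ∀ K, 0 ≤ K → ∀ y : ℝ, ∃ i, ∃ t ∈ Icc K (K + T), ∃ m : ℤ, |A i t - y - m| ≤ ε i

/-- A family of arcs of total length less than one leaves a point uncovered. -/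
theorem exists_uncovered {ι : Type} [Fintype ι] [DecidableEq ι] (x : ι → UnitAddCircle) (r : ι → ℝ)
    (hr : ∀ i, 0 ≤ r i) (j : ι) (hsum : ∑ i ∈ Finset.univ.erase j, 2 * r i < 1) :
    ∃ y : UnitAddCircle, ∀ i, i ≠ j → r i < dist (x i) y := by
  by_contra hcon
  push Not at hcon
  have hcov : (univ : Set UnitAddCircle) ⊆
      ⋃ i ∈ Finset.univ.erase j, Metric.closedBall (x i) (r i) := by
    intro y _
    obtain ⟨i, hi, hd⟩ := hcon y
    simp only [mem_iUnion]
    refine ⟨i, Finset.mem_erase.mpr ⟨hi, Finset.mem_univ _⟩, ?_⟩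
    rw [Metric.mem_closedBall, dist_comm]
    exact hd
  have h1 : (volume : Measure UnitAddCircle) univ ≤
      ∑ i ∈ Finset.univ.erase j, volume (Metric.closedBall (x i) (r i)) :=
    (measure_mono hcov).trans (measure_biUnion_finset_le _ _)
  have : Fact ((0 : ℝ) < 1) := ⟨one_pos⟩
  have h2 : (volume : Measure UnitAddCircle) univ = 1 := UnitAddCircle.measure_univ
  have h3 : ∀ i, volume (Metric.closedBall (x i) (r i)) ≤ ENNReal.ofReal (2 * r i) := by
    intro i
    have h4 := AddCircle.volume_closedBall (T := (1 : ℝ)) (x := x i) (r i)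
    refine h4.le.trans ?_
    exact ENNReal.ofReal_le_ofReal (min_le_right _ _)
  have h5 : (1 : ENNReal) ≤ ENNReal.ofReal (∑ i ∈ Finset.univ.erase j, 2 * r i) := by
    rw [ENNReal.ofReal_sum_of_nonneg (fun i _ => by have := hr i; linarith)]
    rw [← h2]
    exact h1.trans (Finset.sum_le_sum fun i _ => h3 i)
  have h6 : ENNReal.ofReal (∑ i ∈ Finset.univ.erase j, 2 * r i) < 1 := by
    rw [← ENNReal.ofReal_one]
    exact (ENNReal.ofReal_lt_ofReal_iff one_pos).mpr hsum
  exact absurd h5 (not_le.mpr h6)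

theorem unseen (hV : ∀ i, 0 ≤ V i) (hT : 0 ≤ T) (hε : ∀ i, 0 ≤ ε i) (j : Fin (n + 1))
    (hsum : ∑ i ∈ Finset.univ.erase j, (2 * ε i + V i * T) < 1) (c : ℝ) :
    ∃ y : ℝ, ∀ i, i ≠ j → ∀ m : ℤ, ε i + V i * T / 2 < |A i c - y - m| := by
  obtain ⟨x, hx⟩ := exists_uncovered (fun i => (A i c : UnitAddCircle))
    (fun i => ε i + V i * T / 2)
    (fun i => by have := mul_nonneg (hV i) hT; have := hε i; linarith) j (by
      convert hsum using 2
      ring)
  obtain ⟨y, rfl⟩ : ∃ y : ℝ, (y : UnitAddCircle) = x := QuotientAddGroup.mk_surjective _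
  exact ⟨y, fun i hi m => lt_of_lt_of_le (hx i hi) (dist_coe_le _ _ m)⟩

theorem unseen_window (hV : ∀ i, 0 ≤ V i) (hT : 0 ≤ T) (hε : ∀ i, 0 ≤ ε i)
    (hA : ∀ i s t, |A i s - A i t| ≤ V i * |s - t|) (j : Fin (n + 1))
    (hsum : ∑ i ∈ Finset.univ.erase j, (2 * ε i + V i * T) < 1) (K : ℝ) :
    ∃ y : ℝ, ∀ i, i ≠ j → ∀ t ∈ Icc K (K + T), ∀ m : ℤ, ε i < |A i t - y - m| := by
  obtain ⟨y, hy⟩ := unseen (A := A) hV hT hε j hsum (K + T / 2)
  refine ⟨y, ?_⟩
  intro i hi t ht m
  have h1 := hy i hi m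
  have h2 := hA i (K + T / 2) t
  have h3 : |K + T / 2 - t| ≤ T / 2 := by
    rw [abs_le]
    constructor <;> linarith [ht.1, ht.2]
  have h4 : V i * |K + T / 2 - t| ≤ V i * (T / 2) := mul_le_mul_of_nonneg_left h3 (hV i)
  have h5 : |A i (K + T / 2) - y - m| ≤ |A i (K + T / 2) - A i t| + |A i t - y - m| := by
    have := abs_add_le (A i (K + T / 2) - A i t) (A i t - y - m)
    rw [show A i (K + T / 2) - A i t + (A i t - y - m) = A i (K + T / 2) - y - m by ring] at this
    exact this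
  linarith

theorem noncoincide (hV : ∀ i, 0 ≤ V i) (hT : 0 ≤ T) (hε : ∀ i, 0 ≤ ε i)
    (hA : ∀ i s t, |A i s - A i t| ≤ V i * |s - t|)
    (hsum : ∀ j, ∑ i ∈ Finset.univ.erase j, (2 * ε i + V i * T) < 1) (hcov : CovN A ε T) {c : ℝ}
    (hc : T / 2 ≤ c) {i j : Fin (n + 1)} (hij : i ≠ j) (m : ℤ) : A i c - A j c ≠ m := by
  intro heq
  -- wlog the arc of `i` is the smaller one
  have key : ∀ (i j : Fin (n + 1)), i ≠ j → ∀ m : ℤ, A i c - A j c = m →
      ε i + V i * T / 2 ≤ ε j + V j * T / 2 → False := by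
    intro i j hij m heq hle
    obtain ⟨y, hy⟩ := unseen (A := A) hV hT hε i (hsum i) c
    obtain ⟨l, t, ht, m', hm'⟩ := hcov (c - T / 2) (by linarith) y
    have h2 := hA l c t
    have h3 : |c - t| ≤ T / 2 := by
      rw [abs_le]
      constructor <;> linarith [ht.1, ht.2]
    have h4 : V l * |c - t| ≤ V l * (T / 2) := mul_le_mul_of_nonneg_left h3 (hV l)
    have h5 : |A l c - y - m'| ≤ |A l c - A l t| + |A l t - y - m'| := by
      have := abs_add_le (A l c - A l t) (A l t - y - m')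
      rw [show A l c - A l t + (A l t - y - m') = A l c - y - m' by ring] at this
      exact this
    by_cases hl : l = i
    · subst hl
      have h6 := hy j hij.symm (m' - m)
      push_cast at h6
      rw [show A j c - y - ((m' : ℝ) - m) = A l c - y - m' by rw [← heq]; ring] at h6
      linarith
    · have h6 := hy l hl m'
      linarith
  rcases le_total (ε i + V i * T / 2) (ε j + V j * T / 2) with h | h
  · exact key i j hij m heq h
  · refine key j i hij.symm (-m) ?_ h
    push_cast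
    linarith

/-- neighbours overlap in every window -/
theorem gap_lemma (hV : ∀ i, 0 ≤ V i) (hT : 0 ≤ T) (hε : ∀ i, 0 ≤ ε i)
    (hA : ∀ i s t, |A i s - A i t| ≤ V i * |s - t|)
    (hsum : ∀ j, ∑ i ∈ Finset.univ.erase j, (2 * ε i + V i * T) < 1) (hcov : CovN A ε T)
    {j j' : Fin (n + 1)} {p p' : ℤ} {c0 : ℝ} (hc0 : 0 ≤ c0)
    (htri : ∀ (i : Fin (n + 1)) (m : ℤ), (i = j ∧ m = p) ∨ (i = j' ∧ m = p') ∨
      (∀ t, c0 ≤ t → A i t + m < A j t + p) ∨ (∀ t, c0 ≤ t → A j' t + p' < A i t + m))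
    {K : ℝ} (hK : c0 ≤ K) :
    ∃ t ∈ Icc K (K + T), ∃ t' ∈ Icc K (K + T), A j' t' + p' - ε j' ≤ A j t + p + ε j := by
  by_contra hcon
  push Not at hcon
  have hc : ∀ i, Continuous (A i) := fun i => lip_cont (hA i)
  have hne : (Icc K (K + T)).Nonempty := ⟨K, left_mem_Icc.mpr (by linarith)⟩
  obtain ⟨a, ha, hamax⟩ := isCompact_Icc.exists_isMaxOn hne ((hc j).continuousOn (s := Icc K (K + T)))
  obtain ⟨b, hb, hbmin⟩ := isCompact_Icc.exists_isMinOn hne ((hc j').continuousOn (s := Icc K (K + T)))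
  have hamax' : ∀ t ∈ Icc K (K + T), A j t ≤ A j a := fun t ht => hamax ht
  have hbmin' : ∀ t ∈ Icc K (K + T), A j' b ≤ A j' t := fun t ht => hbmin ht
  have hab := hcon a ha b hb
  set y : ℝ := ((A j a + p + ε j) + (A j' b + p' - ε j')) / 2 with hy
  have hy1 : A j a + p + ε j < y := by linarith
  have hy2 : y < A j' b + p' - ε j' := by linarith
  obtain ⟨i, t, ht, m', hm'⟩ := hcov K (by linarith) y
  rw [abs_le] at hm'
  have htc : c0 ≤ t := hK.trans ht.1
  rcases htri i (-m') with ⟨h1, h2⟩ | ⟨h1, h2⟩ | h | h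
  · subst h1
    have h3 := hamax' t ht
    have h4 : ((-m' : ℤ) : ℝ) = p := by exact_mod_cast h2
    push_cast at h4
    linarith [hm'.1, hm'.2]
  · subst h1
    have h3 := hbmin' t ht
    have h4 : ((-m' : ℤ) : ℝ) = p' := by exact_mod_cast h2
    push_cast at h4
    linarith [hm'.1, hm'.2]
  · -- the agent `j` would be dispensable
    have h5 := h t htc
    push_cast at h5
    have h6 := hamax' t ht
    have h7 : ε j < ε i := by linarith [hm'.1, hm'.2]
    have hij : i ≠ j := by
      rintro rfl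
      exact lt_irrefl _ h7
    obtain ⟨z, hz⟩ := unseen_window hV hT hε hA j (hsum j) K
    obtain ⟨l, s, hs, m1, hm1⟩ := hcov K (by linarith) z
    have hlj : l = j := by
      by_contra hlj
      have := hz l hlj s hs m1
      linarith
    subst hlj
    rw [abs_le] at hm1
    have h8 := h s (hK.trans hs.1)
    push_cast at h8
    have h9 := hamax' s hs
    obtain ⟨s', hs', hs''⟩ := near_of_range (f := fun t => A i t - m') ((hc i).sub continuous_const)
      (y := z + m1 + p) (e := ε i) hs ht (hε i) (by linarith [hm1.1, hm1.2])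
      (by linarith [hm1.1, hm1.2, hm'.1, hm'.2])
    have h10 := hz i hij s' hs' (m1 + p + m')
    push_cast at h10
    rw [show A i s' - z - ((m1 : ℝ) + p + m') = A i s' - m' - (z + m1 + p) by ring] at h10
    linarith
  · have h5 := h t htc
    push_cast at h5
    have h6 := hbmin' t ht
    have h7 : ε j' < ε i := by linarith [hm'.1, hm'.2]
    have hij : i ≠ j' := by
      rintro rfl
      exact lt_irrefl _ h7
    obtain ⟨z, hz⟩ := unseen_window hV hT hε hA j' (hsum j') K
    obtain ⟨l, s, hs, m1, hm1⟩ := hcov K (by linarith) z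
    have hlj : l = j' := by
      by_contra hlj
      have := hz l hlj s hs m1
      linarith
    subst hlj
    rw [abs_le] at hm1
    have h8 := h s (hK.trans hs.1)
    push_cast at h8
    have h9 := hbmin' s hs
    obtain ⟨s', hs', hs''⟩ := near_of_range (f := fun t => A i t - m') ((hc i).sub continuous_const)
      (y := z + m1 + p') (e := ε i) ht hs (hε i)
      (by linarith [hm1.1, hm1.2, hm'.1, hm'.2]) (by linarith [hm1.1, hm1.2])
    have h10 := hz i hij s' hs' (m1 + p' + m')
    push_cast at h10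
    rw [show A i s' - z - ((m1 : ℝ) + p' + m') = A i s' - m' - (z + m1 + p') by ring] at h10
    linarith

end CP
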