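import Pool.Agent.Helper59.CP.Order
import Pool.Agent.Helper59.CP.Gen1

/-!
The lower bound for one fast agent and `n` slow agents of equal speed, all indispensable.
-/

open Set

namespace CP

/-- Lifts normalised so that agent `0` comes first and all others follow within one turn. -/
theorem normalise {n : ℕ} {A : Fin (n + 1) → ℝ → ℝ} {V ε : Fin (n + 1) → ℝ} {T : ℝ}
    (hV : ∀ i, 0 ≤ V i) (hT : 0 ≤ T) (hε : ∀ i, 0 ≤ ε i)
    (hA : ∀ i s t, |A i s - A i t| ≤ V i * |s - t|)
    (hsum : ∀ j, ∑ i ∈ Finset.univ.erase j, (2 * ε i + V i * T) < 1) (hcov : CovN A ε T) :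
    ∃ A' : Fin (n + 1) → ℝ → ℝ, (∀ i s t, |A' i s - A' i t| ≤ V i * |s - t|) ∧ CovN A' ε T ∧
      ∀ i, i ≠ 0 → ∀ t, T / 2 ≤ t → A' 0 t < A' i t ∧ A' i t < A' 0 t + 1 := by
  set k : Fin (n + 1) → ℤ := fun i => ⌊A i (T / 2) - A 0 (T / 2)⌋ with hk
  have hlip : ∀ i s t, |(A i s - k i) - (A i t - k i)| ≤ V i * |s - t| := by
    intro i s t
    rw [show A i s - k i - (A i t - k i) = A i s - A i t by ring]
    exact hA i s t
  have hcov' : CovN (fun i t => A i t - k i) ε T := by
    intro K hK y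
    obtain ⟨i, t, ht, m, hm⟩ := hcov K hK y
    refine ⟨i, t, ht, m - k i, ?_⟩
    push_cast
    rw [show A i t - (k i : ℝ) - y - ((m : ℝ) - k i) = A i t - y - m by ring]
    exact hm
  refine ⟨fun i t => A i t - k i, hlip, hcov', ?_⟩
  intro i hi t ht
  have hk0 : k 0 = 0 := by rw [hk]; simp
  have hD : Continuous fun s => (A i s - k i) - (A 0 s - k 0) :=
    ((lip_cont (hA i)).sub continuous_const).sub ((lip_cont (hA 0)).sub continuous_const)
  have hnon := fun c (hc : T / 2 ≤ c) (m : ℤ) => noncoincide hV hT hε hlip hsum hcov' hc hi m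
  have h0a : 0 ≤ (A i (T / 2) - k i) - (A 0 (T / 2) - k 0) := by
    rw [hk0]
    have := Int.floor_le (A i (T / 2) - A 0 (T / 2))
    simp only [Int.cast_zero, sub_zero]
    have h2 : (k i : ℝ) ≤ A i (T / 2) - A 0 (T / 2) := this
    linarith
  have h0b : (A i (T / 2) - k i) - (A 0 (T / 2) - k 0) < 1 := by
    rw [hk0]
    have := Int.lt_floor_add_one (A i (T / 2) - A 0 (T / 2))
    simp only [Int.cast_zero, sub_zero]
    have h2 : A i (T / 2) - A 0 (T / 2) < k i + 1 := this
    linarith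
  constructor
  · by_contra hcon
    push Not at hcon
    obtain ⟨c, hc, hc2⟩ := isPreconnected_Ici.intermediate_value (a := t) (b := T / 2)
      (mem_Ici.mpr ht) (mem_Ici.mpr le_rfl) hD.continuousOn
      (⟨by linarith, h0a⟩ : (0 : ℝ) ∈ Icc _ _)
    apply hnon c (mem_Ici.mp hc) 0
    simp only [Int.cast_zero]
    exact hc2
  · by_contra hcon
    push Not at hcon
    obtain ⟨c, hc, hc2⟩ := isPreconnected_Ici.intermediate_value (a := T / 2) (b := t)
      (mem_Ici.mpr le_rfl) (mem_Ici.mpr ht) hD.continuousOn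
      (⟨h0b.le, by linarith⟩ : (1 : ℝ) ∈ Icc _ _)
    apply hnon c (mem_Ici.mp hc) 1
    simp only [Int.cast_one]
    exact hc2

/-- sorted lifts -/
theorem sorted {n : ℕ} {A : Fin (n + 1) → ℝ → ℝ} {V ε : Fin (n + 1) → ℝ} {T : ℝ}
    (hV : ∀ i, 0 ≤ V i) (hT : 0 ≤ T) (hε : ∀ i, 0 ≤ ε i)
    (hA : ∀ i s t, |A i s - A i t| ≤ V i * |s - t|)
    (hsum : ∀ j, ∑ i ∈ Finset.univ.erase j, (2 * ε i + V i * T) < 1) (hcov : CovN A ε T)
    (hord : ∀ i, i ≠ 0 → ∀ t, T / 2 ≤ t → A 0 t < A i t ∧ A i t < A 0 t + 1) :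
    ∃ π : Equiv.Perm (Fin (n + 1)), π 0 = 0 ∧
      ∀ a b, a < b → ∀ t, T / 2 ≤ t → A (π a) t < A (π b) t := by
  set f : Fin (n + 1) → ℝ := fun i => A i (T / 2) with hf
  have hnon : ∀ i j, i ≠ j → ∀ c, T / 2 ≤ c → A i c ≠ A j c := by
    intro i j hij c hc h
    apply noncoincide hV hT hε hA hsum hcov hc hij 0
    simp only [Int.cast_zero]
    linarith
  have hinj : Function.Injective f := by
    intro i j hij
    by_contra h
    exact hnon i j h _ le_rfl hij
  have hmono : StrictMono (f ∘ Tuple.sort f) :=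
    (Tuple.monotone_sort f).strictMono_of_injective (hinj.comp (Tuple.sort f).injective)
  refine ⟨Tuple.sort f, ?_, ?_⟩
  · by_contra h
    have h1 := (hord _ h (T / 2) le_rfl).1
    have h2 : f (Tuple.sort f 0) ≤ f (Tuple.sort f ((Tuple.sort f).symm 0)) :=
      hmono.monotone (Fin.zero_le _)
    rw [Equiv.apply_symm_apply] at h2
    rw [hf] at h2
    simp only at h2
    rw [← hf] at h2
    linarith
  · intro a b hab t ht
    have h0 : f (Tuple.sort f a) < f (Tuple.sort f b) := hmono hab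
    have hne : Tuple.sort f a ≠ Tuple.sort f b := fun h => hab.ne ((Tuple.sort f).injective h)
    by_contra hcon
    push Not at hcon
    have hc1 := (lip_cont (hA (Tuple.sort f a))).continuousOn (s := Ici (T / 2))
    have hc2 := (lip_cont (hA (Tuple.sort f b))).continuousOn (s := Ici (T / 2))
    obtain ⟨c, hc, hc'⟩ := isPreconnected_Ici.intermediate_value₂ (mem_Ici.mpr le_rfl)
      (mem_Ici.mpr ht) hc1 hc2 h0.le hcon
    exact hnon _ _ hne c (mem_Ici.mp hc) hc'

/-- the abstract chain: `B 0` fast, `B 1, …, B n` slow -/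
theorem chain_bound {n : ℕ} (hn : 1 ≤ n) {B : ℕ → ℝ → ℝ} {e : ℕ → ℝ} {v w T : ℝ} (hv : 0 < v)
    (hw : 0 < w) (hT : 0 < T) (hA : ∀ s t, |B 0 s - B 0 t| ≤ v * |s - t|)
    (hB : ∀ q, 1 ≤ q → q ≤ n → ∀ s t, |B q s - B q t| ≤ w * |s - t|)
    (hadj : ∀ q, q < n → ∀ K, T / 2 ≤ K →
      ∃ t ∈ Icc K (K + T), ∃ t' ∈ Icc K (K + T), B (q + 1) t' - e (q + 1) ≤ B q t + e q)
    (hwrap : ∀ K, T / 2 ≤ K →
      ∃ t ∈ Icc K (K + T), ∃ t' ∈ Icc K (K + T), B 0 t' + 1 - e 0 ≤ B n t + e n) :
    1 - 2 * (e 0 + ∑ i ∈ Finset.range n, e (1 + i)) ≤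
      (n - 1) * (w * T) + max (2 * w * T) ((v + w) * T / 2) := by
  -- the slow chain
  have chain : ∀ j : ℕ, 1 + j ≤ n → ∀ r s : ℝ, (j + 1) * (T / 2) ≤ r →
      B (1 + j) r ≤ B 1 s + w * (j * T + |r - s|) +
        ∑ i ∈ Finset.range j, (e (1 + i) + e (2 + i)) := by
    intro j
    induction j with
    | zero =>
      intro hj r s _
      have h1 := hB 1 le_rfl hn r s
      have h2 := le_abs_self (B 1 r - B 1 s)
      simp only [Nat.cast_zero, zero_mul, zero_add, Finset.range_zero, Finset.sum_empty, add_zero]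
      linarith
    | succ j ih =>
      intro hj r s hr
      have hT2 : 0 ≤ (j : ℝ) * (T / 2) := by positivity
      push_cast at hr
      obtain ⟨t, ht, t', ht', h1⟩ := hadj (1 + j) (by omega) (r - T / 2) (by linarith)
      have h2 := hB (1 + j + 1) (by omega) (by omega) r t'
      have h3 := le_abs_self (B (1 + j + 1) r - B (1 + j + 1) t')
      have h4 : |r - t'| ≤ T / 2 := by
        rw [abs_le]
        constructor <;> linarith [ht'.1, ht'.2]
      have h5 : w * |r - t'| ≤ w * (T / 2) := mul_le_mul_of_nonneg_left h4 hw.le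
      have h6 := ih (by omega) t s (by linarith [ht.1])
      have h7 : |t - s| ≤ T / 2 + |r - s| := by
        have := abs_add_le (t - r) (r - s)
        rw [show t - r + (r - s) = t - s by ring] at this
        have h8 : |t - r| ≤ T / 2 := by
          rw [abs_le]
          constructor <;> linarith [ht.1, ht.2]
        linarith
      have h8 : w * |t - s| ≤ w * (T / 2 + |r - s|) := mul_le_mul_of_nonneg_left h7 hw.le
      rw [Finset.sum_range_succ, show 1 + (j + 1) = 1 + j + 1 by ring,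
        show 2 + j = 1 + j + 1 by ring]
      push_cast
      linarith
  obtain ⟨m, rfl⟩ : ∃ m, n = 1 + m := ⟨n - 1, by omega⟩
  set C : ℝ := e 0 + e 1 + ∑ i ∈ Finset.range m, (e (1 + i) + e (2 + i)) + m * (w * T) with hC
  have hsumid : ∀ m : ℕ, e 1 + e (1 + m) + ∑ i ∈ Finset.range m, (e (1 + i) + e (2 + i)) =
      2 * ∑ i ∈ Finset.range (1 + m), e (1 + i) := by
    intro m
    induction m with
    | zero => simp; ring
    | succ m ih =>
      rw [Finset.sum_range_succ, show 1 + (m + 1) = 1 + m + 1 by ring, Finset.sum_range_succ,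
        mul_add, ← ih, show 2 + m = 1 + m + 1 by ring, show 1 + (1 + m) = 1 + m + 1 by ring]
      ring
  -- time shift
  set c1 : ℝ := (m + 1) * T with hc1
  have hc1T : T ≤ c1 := by
    have : 0 ≤ (m : ℝ) * T := by positivity
    rw [hc1]; linarith
  have hc1' : (m + 1) * (T / 2) ≤ c1 := by
    have : 0 ≤ (m : ℝ) * T := by positivity
    rw [hc1]; linarith
  have hmax : ∀ r s : ℝ, |(c1 + max r 0) - (c1 + max s 0)| ≤ |r - s| := by
    intro r s
    rw [show c1 + max r 0 - (c1 + max s 0) = max r 0 - max s 0 by ring]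
    exact abs_max_sub_max_le_abs r s 0
  have hBn : ∀ s t, |B (1 + m) s - B (1 + m) t| ≤ w * |s - t| := hB (1 + m) (by omega) le_rfl
  have hB1 : ∀ s t, |B 1 s - B 1 t| ≤ w * |s - t| := hB 1 le_rfl (by omega)
  have hshift : Continuous fun t : ℝ => c1 + max t 0 := by fun_prop
  have Z : Sys2 (fun t => B 0 (c1 + max t 0)) (fun t => B 1 (c1 + max t 0) - (e 0 + e 1))
      (fun t => B (1 + m) (c1 + max t 0) - C) v w T
      (1 - 2 * (e 0 + ∑ i ∈ Finset.range (1 + m), e (1 + i)) - m * (w * T)) := by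
    refine ⟨?_, ?_, ?_, ?_, ?_, ?_⟩
    · intro s t
      exact (hA _ _).trans (mul_le_mul_of_nonneg_left (hmax s t) hv.le)
    · exact ((lip_cont hB1).comp hshift).sub continuous_const
    · exact ((lip_cont hBn).comp hshift).sub continuous_const
    · intro r s
      have h1 := chain m le_rfl (c1 + max r 0) (c1 + max s 0) (by
        have := le_max_right r 0
        linarith)
      have h2 : w * |(c1 + max r 0) - (c1 + max s 0)| ≤ w * |r - s| :=
        mul_le_mul_of_nonneg_left (hmax r s) hw.le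
      linarith
    · intro K hK c hc
      obtain ⟨t, ht, t', ht', h1⟩ := hadj 0 (by omega) (c1 + K) (by linarith)
      refine ⟨t' - c1, ⟨by linarith [ht'.1], by linarith [ht'.2]⟩, ?_⟩
      have h2 := hc (t - c1) ⟨by linarith [ht.1], by linarith [ht.2]⟩
      rw [max_eq_left (by linarith [ht.1] : (0:ℝ) ≤ t - c1)] at h2
      rw [max_eq_left (by linarith [ht'.1] : (0:ℝ) ≤ t' - c1)]
      rw [show c1 + (t - c1) = t by ring] at h2
      rw [show c1 + (t' - c1) = t' by ring]
      simp only [zero_add] at h1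
      linarith
    · intro K hK c hc
      obtain ⟨t, ht, t', ht', h1⟩ := hwrap (c1 + K) (by linarith)
      refine ⟨t - c1, ⟨by linarith [ht.1], by linarith [ht.2]⟩, ?_⟩
      have h2 := hc (t' - c1) ⟨by linarith [ht'.1], by linarith [ht'.2]⟩
      rw [max_eq_left (by linarith [ht'.1] : (0:ℝ) ≤ t' - c1)] at h2
      rw [max_eq_left (by linarith [ht.1] : (0:ℝ) ≤ t - c1)]
      rw [show c1 + (t' - c1) = t' by ring] at h2
      rw [show c1 + (t - c1) = t by ring]
      have h3 := hsumid m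
      linarith
  have := Z.main hv hw hT
  push_cast
  linarith

end CP
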