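import Pool.Agent.Helper59.CP.Lift

/-!
The strategies of two agents.
-/

open Set

namespace CP

theorem near_of_range {f : ℝ → ℝ} (hf : Continuous f) {K T e y t1 t2 : ℝ}
    (ht1 : t1 ∈ Icc K (K + T)) (ht2 : t2 ∈ Icc K (K + T)) (he : 0 ≤ e) (h1 : f t1 - e ≤ y)
    (h2 : y ≤ f t2 + e) : ∃ t ∈ Icc K (K + T), |f t - y| ≤ e := by
  rcases lt_or_ge y (f t1) with h | h
  · exact ⟨t1, ht1, by rw [abs_of_pos (by linarith)]; linarith⟩
  · rcases lt_or_ge (f t2) y with h' | h'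
    · exact ⟨t2, ht2, by rw [abs_sub_comm, abs_of_pos (by linarith)]; linarith⟩
    · obtain ⟨t, ht, ht'⟩ := intermediate_value_uIcc (hf.continuousOn (s := uIcc t1 t2))
        (show y ∈ uIcc (f t1) (f t2) from by rw [uIcc_of_le (h.trans h')]; exact ⟨h, h'⟩)
      refine ⟨t, ?_, by rw [ht']; simpa using he⟩
      exact ordConnected_Icc.uIcc_subset ht1 ht2 ht

/-- the circle-valued algorithm of two real paths -/
def alg (A B : ℝ → ℝ) : Fin 2 → ℝ → UnitAddCircle :=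
  ![fun t => (A t : UnitAddCircle), fun t => (B t : UnitAddCircle)]

theorem isTraversal_alg {A B : ℝ → ℝ} {v w : ℝ} (hA : ∀ s t, |A s - A t| ≤ v * |s - t|)
    (hB : ∀ s t, |B s - B t| ≤ w * |s - t|) : IsTraversal ![v, w] (alg A B) := by
  have hAc := lip_cont hA
  have hBc := lip_cont hB
  have hcoe : Continuous ((↑) : ℝ → UnitAddCircle) := AddCircle.continuous_mk' (1 : ℝ)
  have aux : ∀ (f : ℝ → ℝ) (u : ℝ), (∀ s t, |f s - f t| ≤ u * |s - t|) → Continuous f →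
      ContinuousOn (fun t => (f t : UnitAddCircle)) (Ici 0) ∧
        ∀ t s : ℝ, 0 ≤ t → 0 < s → u * s < 1 / 2 →
          dist (f t : UnitAddCircle) (f (t + s) : UnitAddCircle) ≤ u * s := by
    intro f u hf hfc
    refine ⟨(hcoe.comp hfc).continuousOn, ?_⟩
    intro t s _ hs _
    have h1 := dist_coe_le (f t) (f (t + s)) 0
    have h2 := hf t (t + s)
    have h3 : |t - (t + s)| = s := by
      rw [show t - (t + s) = -s by ring, abs_neg, abs_of_pos hs]
    rw [h3] at h2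
    simp only [Int.cast_zero, sub_zero] at h1
    linarith
  intro i
  fin_cases i
  · exact aux A v hA hAc
  · exact aux B w hB hBc

theorem idle_alg_le {A B : ℝ → ℝ} {e1 e2 T : ℝ} (hT : 0 < T)
    (h : ∀ K, 0 ≤ K → ∃ c : ℝ, ∀ y, c ≤ y → y ≤ c + 1 → (∃ t ∈ Icc K (K + T), |A t - y| ≤ e1) ∨
      (∃ t ∈ Icc K (K + T), |B t - y| ≤ e2)) :
    idle ![e1, e2] (alg A B) ≤ ENNReal.ofReal T := by
  unfold idle
  apply iSup_le
  intro x
  unfold idleAt
  apply iInf₂_le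
  refine ⟨hT, ?_⟩
  intro K hK
  obtain ⟨c, hc⟩ := h K hK
  have : Fact ((0 : ℝ) < 1) := ⟨one_pos⟩
  set y := (AddCircle.equivIco 1 c x : ℝ) with hy
  have hyx : (y : UnitAddCircle) = x := AddCircle.coe_equivIco
  have hyc : y ∈ Ico c (c + 1) := (AddCircle.equivIco 1 c x).2
  rcases hc y hyc.1 hyc.2.le with ⟨t, ht, h1⟩ | ⟨t, ht, h1⟩
  · refine ⟨t, ht, 0, ?_⟩
    have h2 := dist_coe_le (A t) y 0
    simp only [Int.cast_zero, sub_zero] at h2
    rw [← hyx]
    exact h2.trans h1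
  · refine ⟨t, ht, 1, ?_⟩
    have h2 := dist_coe_le (B t) y 0
    simp only [Int.cast_zero, sub_zero] at h2
    rw [← hyx]
    exact h2.trans h1

/-- linear motion -/
theorem lip_lin (v c : ℝ) (hv : 0 ≤ v) : ∀ s t : ℝ, |(v * s + c) - (v * t + c)| ≤ v * |s - t| := by
  intro s t
  rw [show v * s + c - (v * t + c) = v * (s - t) by ring, abs_mul, abs_of_nonneg hv]

theorem lip_weaken {f : ℝ → ℝ} {u v : ℝ} (huv : u ≤ v) (hf : ∀ s t, |f s - f t| ≤ u * |s - t|) :
    ∀ s t, |f s - f t| ≤ v * |s - t| := fun s t =>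
  (hf s t).trans (mul_le_mul_of_nonneg_right huv (abs_nonneg _))

/-- zigzag with period `T` -/
noncomputable def zz (T v c t : ℝ) : ℝ := v * ‖(t : AddCircle T)‖ + c

theorem lip_zz (T v c : ℝ) (hv : 0 ≤ v) : ∀ s t : ℝ, |zz T v c s - zz T v c t| ≤ v * |s - t| := by
  intro s t
  unfold zz
  rw [show v * ‖(s : AddCircle T)‖ + c - (v * ‖(t : AddCircle T)‖ + c) =
    v * (‖(s : AddCircle T)‖ - ‖(t : AddCircle T)‖) by ring, abs_mul, abs_of_nonneg hv]
  apply mul_le_mul_of_nonneg_left _ hv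
  apply (abs_norm_sub_norm_le _ _).trans
  rw [← AddCircle.coe_sub, AddCircle.norm_eq]
  have h1 := AddCircle.norm_eq (p := T) (x := s - t)
  have h2 : ‖((s - t : ℝ) : AddCircle T)‖ ≤ ‖s - t‖ := QuotientAddGroup.norm_mk_le_norm
  rw [h1, Real.norm_eq_abs] at h2
  exact h2

theorem zz_low {T : ℝ} (hT : 0 < T) (v c K : ℝ) : ∃ t ∈ Icc K (K + T), zz T v c t = c := by
  refine ⟨⌈K / T⌉ * T, ⟨?_, ?_⟩, ?_⟩
  · have := Int.le_ceil (K / T)
    rw [div_le_iff₀ hT] at this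
    exact this
  · have := Int.ceil_lt_add_one (K / T)
    have h2 : (⌈K / T⌉ : ℝ) * T < (K / T + 1) * T := mul_lt_mul_of_pos_right this hT
    have h3 : (K / T + 1) * T = K + T := by field_simp
    linarith
  · unfold zz
    have : (((⌈K / T⌉ : ℝ) * T : ℝ) : AddCircle T) = 0 := by
      rw [← zsmul_eq_mul, AddCircle.coe_zsmul, AddCircle.coe_period, smul_zero]
    rw [this, norm_zero]
    ring

theorem zz_high {T : ℝ} (hT : 0 < T) (v c K : ℝ) :
    ∃ t ∈ Icc K (K + T), zz T v c t = v * (T / 2) + c := by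
  refine ⟨⌈(K - T / 2) / T⌉ * T + T / 2, ⟨?_, ?_⟩, ?_⟩
  · have := Int.le_ceil ((K - T / 2) / T)
    rw [div_le_iff₀ hT] at this
    linarith
  · have := Int.ceil_lt_add_one ((K - T / 2) / T)
    have h2 : (⌈(K - T / 2) / T⌉ : ℝ) * T < ((K - T / 2) / T + 1) * T :=
      mul_lt_mul_of_pos_right this hT
    have h3 : ((K - T / 2) / T + 1) * T = K - T / 2 + T := by field_simp
    linarith
  · unfold zz
    have : (((⌈(K - T / 2) / T⌉ : ℝ) * T + T / 2 : ℝ) : AddCircle T) = ((T / 2 : ℝ) : AddCircle T) := by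
      rw [AddCircle.coe_add, ← zsmul_eq_mul, AddCircle.coe_zsmul, AddCircle.coe_period, smul_zero,
        zero_add]
    rw [this, AddCircle.norm_half_period_eq, abs_of_pos hT]

variable {v1 v2 e1 e2 : ℝ}

/-- nobody moves -/
theorem static (h1 : 0 < v1) (h2 : 0 < v2) (he1 : 0 ≤ e1) (he2 : 0 ≤ e2)
    (hL : 1 - 2 * e1 - 2 * e2 ≤ 0) :
    ∃ a, IsTraversal ![v1, v2] a ∧ idle ![e1, e2] a = 0 := by
  refine ⟨alg (fun _ => 0) (fun _ => e1 + e2), isTraversal_alg ?_ ?_, ?_⟩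
  · intro s t; simp only [sub_self, abs_zero]; positivity
  · intro s t; simp only [sub_self, abs_zero]; positivity
  · have hle : ∀ T : ℝ, 0 < T → idle ![e1, e2] (alg (fun _ => 0) (fun _ => e1 + e2)) ≤
        ENNReal.ofReal T := by
      intro T hT
      apply idle_alg_le hT
      intro K hK
      refine ⟨-e1, ?_⟩
      intro y hy1 hy2
      rcases le_total y e1 with h | h
      · left
        exact ⟨K, left_mem_Icc.mpr (by linarith), by rw [abs_le]; constructor <;> linarith⟩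
      · right
        exact ⟨K, left_mem_Icc.mpr (by linarith), by rw [abs_le]; constructor <;> linarith⟩
    rw [← nonpos_iff_eq_zero]
    apply le_of_forall_gt
    intro b hb
    rcases eq_or_ne b ⊤ with hb' | hb'
    · rw [hb']
      exact lt_of_le_of_lt (hle 1 one_pos) ENNReal.ofReal_lt_top
    · have h3 : 0 < b.toReal := ENNReal.toReal_pos hb.ne' hb'
      have h4 := hle (b.toReal / 2) (by linarith)
      apply lt_of_le_of_lt h4
      rw [ENNReal.ofReal_lt_iff_lt_toReal (by linarith) hb']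
      linarith

/-- agent 1 walks around, agent 2 sleeps -/
theorem strat1 (h1 : 0 < v1) (h2 : 0 < v2) (he1 : 0 ≤ e1) (h : 0 < 1 - 2 * e1) :
    ∃ a, IsTraversal ![v1, v2] a ∧ idle ![e1, e2] a ≤ ENNReal.ofReal ((1 - 2 * e1) / v1) := by
  refine ⟨alg (fun t => v1 * t + 0) (fun _ => 0), isTraversal_alg (lip_lin v1 0 h1.le) ?_, ?_⟩
  · intro s t; simp only [sub_self, abs_zero]; positivity
  · have hT : 0 < (1 - 2 * e1) / v1 := div_pos h h1
    apply idle_alg_le hT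
    intro K hK
    set T := (1 - 2 * e1) / v1 with hTdef
    have hvT : v1 * T = 1 - 2 * e1 := by rw [hTdef]; field_simp
    refine ⟨v1 * K - e1, ?_⟩
    intro y hy1 hy2
    left
    apply near_of_range (t1 := K) (t2 := K + T) _ (left_mem_Icc.mpr (by linarith))
      (right_mem_Icc.mpr (by linarith)) he1 (by linarith) _
    · fun_prop
    · nlinarith

/-- both walk around at speed `v2` -/
theorem strat2 (h2 : 0 < v2) (h12 : v2 ≤ v1) (he1 : 0 ≤ e1) (he2 : 0 ≤ e2)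
    (hL : 0 < 1 - 2 * e1 - 2 * e2) :
    ∃ a, IsTraversal ![v1, v2] a ∧
      idle ![e1, e2] a ≤ ENNReal.ofReal ((1 - 2 * e1 - 2 * e2) / (2 * v2)) := by
  have hT : 0 < (1 - 2 * e1 - 2 * e2) / (2 * v2) := div_pos hL (by linarith)
  set T := (1 - 2 * e1 - 2 * e2) / (2 * v2) with hTdef
  have hvT : 2 * (v2 * T) = 1 - 2 * e1 - 2 * e2 := by rw [hTdef]; field_simp
  refine ⟨alg (fun t => v2 * t + 0) (fun t => v2 * t + (v2 * T + e1 + e2)),
    isTraversal_alg (lip_weaken h12 (lip_lin v2 0 h2.le)) (lip_lin v2 _ h2.le), ?_⟩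
  apply idle_alg_le hT
  intro K hK
  refine ⟨v2 * K - e1, ?_⟩
  intro y hy1 hy2
  rcases le_total y (v2 * (K + T) + e1) with h | h
  · left
    apply near_of_range (t1 := K) (t2 := K + T) _ (left_mem_Icc.mpr (by linarith))
      (right_mem_Icc.mpr (by linarith)) he1 (by linarith) (by linarith)
    fun_prop
  · right
    apply near_of_range (t1 := K) (t2 := K + T) _ (left_mem_Icc.mpr (by linarith))
      (right_mem_Icc.mpr (by linarith)) he2 (by linarith) _
    · fun_prop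
    · nlinarith

/-- two zigzags -/
theorem strat3 (h2 : 0 < v2) (h12 : v2 ≤ v1) (he1 : 0 ≤ e1) (he2 : 0 ≤ e2)
    (hL : 0 < 1 - 2 * e1 - 2 * e2) :
    ∃ a, IsTraversal ![v1, v2] a ∧
      idle ![e1, e2] a ≤ ENNReal.ofReal (2 * (1 - 2 * e1 - 2 * e2) / (v1 + v2)) := by
  have hT : 0 < 2 * (1 - 2 * e1 - 2 * e2) / (v1 + v2) := div_pos (by linarith) (by linarith)
  set T := 2 * (1 - 2 * e1 - 2 * e2) / (v1 + v2) with hTdef
  have hvT : (v1 + v2) * (T / 2) = 1 - 2 * e1 - 2 * e2 := by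
    have : v1 + v2 ≠ 0 := by linarith
    rw [hTdef]; field_simp
  refine ⟨alg (zz T v1 0) (zz T v2 (v1 * (T / 2) + e1 + e2)),
    isTraversal_alg (lip_zz T v1 0 (by linarith)) (lip_zz T v2 _ h2.le), ?_⟩
  apply idle_alg_le hT
  intro K hK
  refine ⟨-e1, ?_⟩
  intro y hy1 hy2
  obtain ⟨t1, ht1, ht1'⟩ := zz_low hT v1 0 K
  obtain ⟨t2, ht2, ht2'⟩ := zz_high hT v1 0 K
  obtain ⟨t3, ht3, ht3'⟩ := zz_low hT v2 (v1 * (T / 2) + e1 + e2) K
  obtain ⟨t4, ht4, ht4'⟩ := zz_high hT v2 (v1 * (T / 2) + e1 + e2) K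
  rcases le_total y (v1 * (T / 2) + e1) with h | h
  · left
    exact near_of_range (lip_cont (lip_zz T v1 0 (by linarith))) ht1 ht2 he1
      (by rw [ht1']; linarith) (by rw [ht2']; linarith)
  · right
    exact near_of_range (lip_cont (lip_zz T v2 _ h2.le)) ht3 ht4 he2
      (by rw [ht3']; linarith) (by rw [ht4']; nlinarith)

/-- the optimal value -/
noncomputable def val (v1 v2 e1 e2 : ℝ) : ℝ :=
  min ((1 - 2 * e1) / v1)
    (min ((1 - 2 * e1 - 2 * e2) / (2 * v2)) (2 * (1 - 2 * e1 - 2 * e2) / (v1 + v2)))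

theorem upper (h2 : 0 < v2) (h12 : v2 ≤ v1) (he1 : 0 ≤ e1) (he2 : 0 ≤ e2) :
    ∃ a, IsTraversal ![v1, v2] a ∧ idle ![e1, e2] a ≤ ENNReal.ofReal (val v1 v2 e1 e2) := by
  rcases le_or_gt (1 - 2 * e1 - 2 * e2) 0 with hL | hL
  · obtain ⟨a, ha, ha2⟩ := static (lt_of_lt_of_le h2 h12) h2 he1 he2 hL
    exact ⟨a, ha, by rw [ha2]; exact bot_le⟩
  · unfold val
    rcases min_choice ((1 - 2 * e1) / v1)
      (min ((1 - 2 * e1 - 2 * e2) / (2 * v2)) (2 * (1 - 2 * e1 - 2 * e2) / (v1 + v2))) with h | h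
    · rw [h]
      exact strat1 (lt_of_lt_of_le h2 h12) h2 he1 (by linarith)
    · rw [h]
      rcases min_choice ((1 - 2 * e1 - 2 * e2) / (2 * v2))
        (2 * (1 - 2 * e1 - 2 * e2) / (v1 + v2)) with h' | h'
      · rw [h']
        exact strat2 h2 h12 he1 he2 hL
      · rw [h']
        exact strat3 h2 h12 he1 he2 hL

end CP
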